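import Pool.Agent.Helper45.FG.St

set_option autoImplicit false

namespace Pool.Agent.Helper45.FG

open scoped BigOperators

private lemma d_one {I : Type} [Fintype I] (R : FusionRing I) (d : I → ℝ) (h : IsDim R d) :
    d R.one = 1 := by
  classical
  have h1 := h.mul R.one R.one
  have h2 : ∑ k, (R.N R.one R.one k : ℝ) * d k = d R.one := by
    rw [Finset.sum_eq_single R.one]
    · rw [R.one_mul_self]; norm_num
    · intro k _ hk
      rw [R.one_mul_ne R.one k hk]; norm_num
    · intro h3
      exact absurd (Finset.mem_univ _) h3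
  rw [h2] at h1
  have h3 := h.pos R.one
  have h4 : d R.one * (d R.one - 1) = 0 := by rw [mul_sub, h1]; ring
  rcases mul_eq_zero.1 h4 with h5 | h5
  · exact absurd h5 h3.ne'
  · linarith

private lemma dom {I : Type} [Fintype I] (R : FusionRing I) (d : I → ℝ) (h : IsDim R d)
    (e : I → ℝ) (he : ∀ i, 0 < e i) (hm : ∀ i j, e i * e j = ∑ k, (R.N i j k : ℝ) * e k) (i : I) :
    e i ≤ d i := by
  classical
  obtain ⟨j0, -, hj⟩ := Finset.exists_max_image (Finset.univ : Finset I) (fun j => e j / d j)
    ⟨R.one, Finset.mem_univ _⟩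
  have hc : 0 < e j0 / d j0 := div_pos (he j0) (h.pos j0)
  have hle : ∀ k, e k ≤ e j0 / d j0 * d k := by
    intro k
    have h1 := hj k (Finset.mem_univ k)
    have h2 := h.pos k
    calc e k = e k / d k * d k := by field_simp
      _ ≤ e j0 / d j0 * d k := mul_le_mul_of_nonneg_right h1 h2.le
  have h3 : e i * e j0 ≤ e j0 / d j0 * (d i * d j0) := by
    rw [hm, h.mul, Finset.mul_sum]
    apply Finset.sum_le_sum
    intro k _
    calc (R.N i j0 k : ℝ) * e k ≤ (R.N i j0 k : ℝ) * (e j0 / d j0 * d k) :=
          mul_le_mul_of_nonneg_left (hle k) (Nat.cast_nonneg _)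
      _ = e j0 / d j0 * ((R.N i j0 k : ℝ) * d k) := by ring
  have h4 : e j0 / d j0 * (d i * d j0) = d i * e j0 := by
    have := (h.pos j0).ne'
    field_simp
  rw [h4] at h3
  exact le_of_mul_le_mul_right h3 (he j0)

private lemma d_dual {I : Type} [Fintype I] (R : FusionRing I) (d : I → ℝ) (h : IsDim R d) (i : I) :
    d (R.dual i) = d i := by
  classical
  have key : ∀ j, d (R.dual j) ≤ d j := by
    intro j
    apply dom R d h (fun j => d (R.dual j)) (fun j => h.pos _)
    intro a b
    show d (R.dual a) * d (R.dual b) = _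
    rw [mul_comm, h.mul]
    have hbij : Function.Bijective R.dual :=
      Function.Involutive.bijective (fun x => R.dual_dual x)
    rw [← hbij.sum_comp]
    apply Finset.sum_congr rfl
    intro k _
    rw [R.dual_mul]
  apply le_antisymm (key i)
  have := key (R.dual i)
  rwa [R.dual_dual] at this

theorem hFIN : StFIN := by
  classical
  intro I _ R d h
  refine ⟨d_one R d h, ?_, ?_⟩
  · intro i
    let N : Submodule ℤ ℝ := Submodule.span ℤ (Set.range d)
    have hfg : N.FG := Submodule.fg_span (Set.finite_range d)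
    have hne : N ≠ ⊥ := by
      intro hb
      have h1 : d R.one ∈ N := Submodule.subset_span ⟨R.one, rfl⟩
      rw [hb, Submodule.mem_bot] at h1
      exact absurd h1 (h.pos _).ne'
    apply isIntegral_of_smul_mem_submodule N hne hfg
    intro n hn
    refine Submodule.span_induction (p := fun x _ => d i • x ∈ N) ?_ ?_ ?_ ?_ hn
    · rintro _ ⟨j, rfl⟩
      rw [smul_eq_mul, h.mul]
      apply Submodule.sum_mem
      intro k _
      have h2 : (R.N i j k : ℝ) * d k = (R.N i j k : ℤ) • d k := by
        rw [zsmul_eq_mul]; push_cast; rfl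
      rw [h2]
      exact Submodule.smul_mem _ _ (Submodule.subset_span ⟨k, rfl⟩)
    · rw [smul_zero]; exact N.zero_mem
    · intro x y _ _ hx hy
      rw [smul_add]
      exact N.add_mem hx hy
    · intro a x _ hx
      rw [smul_comm]
      exact N.smul_mem a hx
  · intro i
    have h1 : d i * d (R.dual i) = ∑ k, (R.N i (R.dual i) k : ℝ) * d k := h.mul i (R.dual i)
    have h2 : d R.one ≤ ∑ k, (R.N i (R.dual i) k : ℝ) * d k := by
      have h3 : (R.N i (R.dual i) R.one : ℝ) * d R.one ≤
          ∑ k, (R.N i (R.dual i) k : ℝ) * d k :=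
        Finset.single_le_sum (f := fun k => (R.N i (R.dual i) k : ℝ) * d k)
          (fun k _ => mul_nonneg (Nat.cast_nonneg _) (h.pos k).le) (Finset.mem_univ R.one)
      rw [R.dual_self] at h3
      simpa using h3
    rw [← h1, d_dual R d h, d_one R d h] at h2
    have h4 := h.pos i
    nlinarith

end Pool.Agent.Helper45.FG
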