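import Pool.Agent.Helper45.FG.Main

/-!
Project FG: candidates of minimal size near an extreme ray are necessarily simple.
-/

set_option autoImplicit false

namespace Pool.Agent.Helper45.FG

open scoped BigOperators

/-- candidates near an extreme ray (with parameters `B`, `C`) -/
def NearC (K : IntermediateField ℚ ℝ) (B C : ℝ) (x : K) : Prop :=
  Cand K x ∧ (∃ t : K ≃ₐ[ℚ] K, t x ≠ x) ∧ ∃ t0 : K ≃ₐ[ℚ] K, t0 ≠ 1 ∧
    ∀ t : K ≃ₐ[ℚ] K, t ≠ t0 → ((x : ℝ) - ((t x : K) : ℝ)) ^ (Module.finrank ℚ K - 2) * B ≤ C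

theorem finite_cand (K : IntermediateField ℚ ℝ) [FiniteDimensional ℚ K] [IsGalois ℚ K] (M : ℝ) :
    {x : K | Cand K x ∧ (x : ℝ) ≤ M}.Finite := by
  have : NumberField K := ⟨⟩
  refine (NumberField.Embeddings.finite_of_norm_le K ℂ M).subset ?_
  rintro x ⟨⟨h1, h2, h3⟩, h4⟩
  refine ⟨h1, ?_⟩
  intro φ
  let f : K →ₐ[ℚ] ℂ := φ.toRatAlgHom
  have hf : ∀ y, f y = φ y := fun y => rfl
  let σ := Normal.algHomEquivAut ℚ ℂ K f
  have hσ : f x = algebraMap K ℂ (σ x) := by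
    have := (Normal.algHomEquivAut ℚ ℂ K).symm_apply_apply f
    have h5 := DFunLike.congr_fun this x
    rw [← h5]
    rfl
  rw [← hf, hσ]
  have h6 : (algebraMap K ℂ (σ x)) = (((σ x : K) : ℝ) : ℂ) := rfl
  rw [h6, Complex.norm_real, Real.norm_eq_abs]
  exact le_trans (h3 σ) h4

theorem exists_min (K : IntermediateField ℚ ℝ) [FiniteDimensional ℚ K] [IsGalois ℚ K] (B C : ℝ)
    (b : K) (hb : NearC K B C b) :
    ∃ β : K, NearC K B C β ∧ (β : ℝ) ≤ (b : ℝ) ∧ ∀ x : K, NearC K B C x → (β : ℝ) ≤ (x : ℝ) := by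
  have hfin : {x : K | NearC K B C x ∧ (x : ℝ) ≤ (b : ℝ)}.Finite :=
    (finite_cand K (b : ℝ)).subset (fun x hx => ⟨hx.1.1, hx.2⟩)
  obtain ⟨β, hβ, hmin⟩ := hfin.exists_minimalFor (fun x : K => (x : ℝ)) _ ⟨b, hb, le_rfl⟩
  refine ⟨β, hβ.1, hβ.2, ?_⟩
  intro x hx
  by_cases h : (x : ℝ) ≤ (b : ℝ)
  · by_contra hlt
    push Not at hlt
    have := hmin ⟨hx, h⟩ hlt.le
    exact absurd (lt_of_le_of_lt this hlt) (lt_irrefl _)
  · push Not at h
    exact le_trans hβ.2 h.le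

theorem simple_of_min (hFIN : StFIN) (hFEX : StFEX) (hCST : StCST)
    (K : IntermediateField ℚ ℝ) [FiniteDimensional ℚ K] [IsGalois ℚ K]
    (h3 : 3 ≤ Module.finrank ℚ K) (B C : ℝ) (hB : 0 < B) (β : K) (hβ : NearC K B C β)
    (hmin : ∀ x : K, NearC K B C x → (β : ℝ) ≤ (x : ℝ))
    (I : Type) [Fintype I] (R : FusionRing I) (d : I → ℝ) (hd : IsDim R d) (n : I → ℕ)
    (hn : (β : ℝ) = ∑ i, (n i : ℝ) * d i) : ∃ i, n = simple i := by
  classical
  obtain ⟨hc, hmv, t0, ht0, hg⟩ := hβ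
  obtain ⟨A1, i, hi, x, hx, ⟨t, ht1, htt0, htx⟩, -⟩ :=
    hCST K inferInstance inferInstance h3 β t0 B C hB ht0 hmv hg I R d hd n hn
  obtain ⟨y, hy, hyt⟩ := A1 i hi
  have hyx : y = x := by
    apply Subtype.ext
    rw [hy, hx]
  subst hyx
  have hint : IsIntegral ℤ y := by
    have h4 : IsIntegral ℤ (algebraMap K ℝ y) := by
      have h5 : algebraMap K ℝ y = d i := hy
      rw [h5]
      exact (hFIN I R d hd).2.1 i
    exact (isIntegral_algebraMap_iff (algebraMap K ℝ).injective).1 h4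
  have hnear : NearC K B C y := by
    refine ⟨⟨hint, by rw [hy]; exact hd.pos i, ?_⟩, ⟨t, ?_⟩, t0, ht0, ?_⟩
    · intro t'
      exact hFEX K inferInstance I R d hd t' i y hy
    · intro h
      rw [h] at htx
      exact lt_irrefl _ htx
    · intro t' ht'
      exact (hyt t').2 ht'
  have hle : (β : ℝ) ≤ d i := by
    rw [← hy]
    exact hmin y hnear
  have hni : (1 : ℝ) ≤ n i := by
    exact_mod_cast Nat.one_le_iff_ne_zero.2 hi
  have hsplit : (n i : ℝ) * d i + ∑ j ∈ Finset.univ.erase i, (n j : ℝ) * d j = ∑ j, (n j : ℝ) * d j :=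
    Finset.add_sum_erase Finset.univ (fun j => (n j : ℝ) * d j) (Finset.mem_univ i)
  have hnn : ∀ j ∈ Finset.univ.erase i, 0 ≤ (n j : ℝ) * d j := fun j _ =>
    mul_nonneg (Nat.cast_nonneg _) (hd.pos j).le
  have hsum : 0 ≤ ∑ j ∈ Finset.univ.erase i, (n j : ℝ) * d j := Finset.sum_nonneg hnn
  have hdi := hd.pos i
  have h6 : d i ≤ (n i : ℝ) * d i := by nlinarith
  have hz : ∑ j ∈ Finset.univ.erase i, (n j : ℝ) * d j = 0 := by linarith
  have hone : (n i : ℝ) = 1 := by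
    have h7 : (n i : ℝ) * d i = d i := by linarith
    have h8 : ((n i : ℝ) - 1) * d i = 0 := by rw [sub_mul, h7]; ring
    rcases mul_eq_zero.1 h8 with h9 | h9
    · linarith
    · exact absurd h9 hdi.ne'
  refine ⟨i, ?_⟩
  funext j
  unfold simple
  by_cases hj : j = i
  · subst hj
    rw [if_pos rfl]
    exact_mod_cast hone
  · rw [if_neg hj]
    have h10 := (Finset.sum_eq_zero_iff_of_nonneg hnn).1 hz j
      (Finset.mem_erase.2 ⟨hj, Finset.mem_univ j⟩)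
    rcases mul_eq_zero.1 h10 with h11 | h11
    · exact_mod_cast h11
    · exact absurd h11 (hd.pos j).ne'

/-- The statement on necessarily simple candidates. -/
def StSIM : Prop :=
  ∀ (K : IntermediateField ℚ ℝ), FiniteDimensional ℚ K → IsGalois ℚ K → 3 ≤ Module.finrank ℚ K →
    ∃ c : ℝ, 0 < c ∧ ∀ B : ℝ, 1 ≤ c * B → ∃ β : K, Cand K β ∧ c * B ≤ (β : ℝ) ^ 2 ∧ (β : ℝ) ≤ B ∧
      (∃ t0 : K ≃ₐ[ℚ] K, t0 ≠ 1 ∧
        (∀ t : K ≃ₐ[ℚ] K, t ≠ t0 →
          c * B * ((β : ℝ) - ((t β : K) : ℝ)) ^ (Module.finrank ℚ K - 2) ≤ 1) ∧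
        (∃ t : K ≃ₐ[ℚ] K, t ≠ 1 ∧ t ≠ t0 ∧ ((t β : K) : ℝ) < (β : ℝ)) ∧
        ((t0 β : K) : ℝ) < 2 - (β : ℝ)) ∧
      ∀ (I : Type) [Fintype I] (R : FusionRing I) (n : I → ℕ), IsFP R n (β : ℝ) →
        ∃ i, n = simple i

theorem hSIM (hFIN : StFIN) (hFEX : StFEX) (hPFE : StPFE) (hPFM : StPFM) (hADM : StADM)
    (hNRM : StNRM) (hSTB : StSTB) (hCST : StCST) : StSIM := by
  classical
  intro K hK1 hK2 h3
  obtain ⟨C, hC, H⟩ := hADM K hK1 hK2 h3
  set m := Module.finrank ℚ K - 2 with hmdef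
  refine ⟨1 / (32 * C), by positivity, ?_⟩
  intro B hB
  have hC0 : 0 < C := by linarith
  have hBC : 32 * C ≤ B := by
    have h0 : (0:ℝ) < 32 * C := by positivity
    have := mul_le_mul_of_nonneg_left hB h0.le
    rw [mul_one] at this
    calc 32 * C ≤ 32 * C * (1 / (32 * C) * B) := this
      _ = B := by field_simp
  have hB0 : 0 < B := by linarith
  obtain ⟨b, hc, h1, h2, hmv, t0, ht0, hg⟩ := H (B / 2) (by linarith)
  have hb : NearC K (B / 2) C b := ⟨hc, hmv, t0, ht0, hg⟩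
  obtain ⟨β, hβ, hβb, hmin⟩ := exists_min K (B / 2) C b hb
  obtain ⟨hβc, hβmv, s0, hs0, hβg⟩ := hβ
  have hle : (β : ℝ) ≤ B := by linarith
  -- the largest gap
  have hne : (Finset.univ.filter (fun t : K ≃ₐ[ℚ] K => t ≠ s0)).Nonempty :=
    ⟨1, Finset.mem_filter.2 ⟨Finset.mem_univ _, hs0.symm⟩⟩
  obtain ⟨tm, htm, hmax⟩ := Finset.exists_max_image _
    (fun t : K ≃ₐ[ℚ] K => (β : ℝ) - ((t β : K) : ℝ)) hne
  have htm' : tm ≠ s0 := (Finset.mem_filter.1 htm).2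
  have hN := hNRM K hK1 hK2 β s0 ((β : ℝ) - ((tm β : K) : ℝ)) hβc.1 hβc.2.2
    (fun t ht => hmax t (Finset.mem_filter.2 ⟨Finset.mem_univ _, ht⟩)) hβmv
  have hG := hβg tm htm'
  have hlow : 1 / (8 * C) * B ≤ (β : ℝ) ^ 2 := by
    have h5 : B / 2 ≤ C * (2 * (β : ℝ)) ^ 2 := by
      calc B / 2 = B / 2 * 1 := by ring
        _ ≤ B / 2 * (((β : ℝ) - ((tm β : K) : ℝ)) ^ m * (2 * (β : ℝ)) ^ 2) :=
            mul_le_mul_of_nonneg_left hN (by positivity)
        _ = (((β : ℝ) - ((tm β : K) : ℝ)) ^ m * (B / 2)) * (2 * (β : ℝ)) ^ 2 := by ring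
        _ ≤ C * (2 * (β : ℝ)) ^ 2 := mul_le_mul_of_nonneg_right hG (by positivity)
    calc 1 / (8 * C) * B = 1 / (4 * C) * (B / 2) := by ring
      _ ≤ 1 / (4 * C) * (C * (2 * (β : ℝ)) ^ 2) := mul_le_mul_of_nonneg_left h5 (by positivity)
      _ = (β : ℝ) ^ 2 := by field_simp; ring
  have hβ0 : 0 < (β : ℝ) := hβc.2.1
  have hβ2 : 2 ≤ (β : ℝ) := by
    have h5 : (4:ℝ) ≤ 1 / (8 * C) * B := by
      calc (4:ℝ) = 1 / (8 * C) * (32 * C) := by field_simp; norm_num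
        _ ≤ 1 / (8 * C) * B := mul_le_mul_of_nonneg_left hBC (by positivity)
    nlinarith
  have hm1 : 1 ≤ m := by omega
  -- the gaps are smaller than one
  have hsmall : ∀ t : K ≃ₐ[ℚ] K, t ≠ s0 → (β : ℝ) - ((t β : K) : ℝ) < 1 := by
    intro t ht
    by_contra hcon
    push Not at hcon
    have h7 := hβg t ht
    have h8 : (1:ℝ) ≤ ((β : ℝ) - ((t β : K) : ℝ)) ^ m := one_le_pow₀ hcon
    nlinarith
  have hlow' : 1 / (32 * C) * B ≤ (β : ℝ) ^ 2 := by
    calc 1 / (32 * C) * B ≤ 1 / (8 * C) * B := by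
          apply mul_le_mul_of_nonneg_right _ hB0.le
          apply one_div_le_one_div_of_le (by positivity)
          linarith
      _ ≤ (β : ℝ) ^ 2 := hlow
  refine ⟨β, hβc, hlow', hle, ⟨s0, hs0, ?_, ?_, ?_⟩, ?_⟩
  · intro t ht
    have h7 := hβg t ht
    calc 1 / (32 * C) * B * ((β : ℝ) - ((t β : K) : ℝ)) ^ m
        = 1 / (16 * C) * (((β : ℝ) - ((t β : K) : ℝ)) ^ m * (B / 2)) := by ring
      _ ≤ 1 / (16 * C) * C := mul_le_mul_of_nonneg_left h7 (by positivity)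
      _ = 1 / 16 := by field_simp
      _ ≤ 1 := by norm_num
  · obtain ⟨t, h8, h9, h10⟩ := hSTB K hK1 hK2 h3 β s0 hβmv
    refine ⟨t, h8, h9, ?_⟩
    have h11 : ((t β : K) : ℝ) ≤ (β : ℝ) := le_trans (le_abs_self _) (hβc.2.2 t)
    rcases lt_or_eq_of_le h11 with h12 | h12
    · exact h12
    · exact absurd (Subtype.ext h12) h10
  · -- otherwise β - 1 would be a smaller element
    by_contra hcon
    push Not at hcon
    have hsub : ∀ t : K ≃ₐ[ℚ] K, ((t (β - 1) : K) : ℝ) = ((t β : K) : ℝ) - 1 := by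
      intro t
      rw [map_sub, map_one]
      push_cast
      ring
    have hcoe : ((β - 1 : K) : ℝ) = (β : ℝ) - 1 := by push_cast; ring
    have hnear : NearC K (B / 2) C (β - 1) := by
      refine ⟨⟨hβc.1.sub isIntegral_one, by rw [hcoe]; linarith, ?_⟩, ?_, s0, hs0, ?_⟩
      · intro t
        rw [hsub, hcoe, abs_le]
        have h11 : ((t β : K) : ℝ) ≤ (β : ℝ) := le_trans (le_abs_self _) (hβc.2.2 t)
        refine ⟨?_, by linarith⟩
        by_cases ht : t = s0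
        · rw [ht]; linarith
        · have := hsmall t ht
          linarith
      · obtain ⟨t, ht⟩ := hβmv
        refine ⟨t, ?_⟩
        intro h13
        apply ht
        rw [map_sub, map_one] at h13
        exact sub_left_inj.1 h13
      · intro t ht
        rw [hsub, hcoe]
        have h14 : (β : ℝ) - 1 - (((t β : K) : ℝ) - 1) = (β : ℝ) - ((t β : K) : ℝ) := by ring
        rw [h14]
        exact hβg t ht
    have h15 := hmin (β - 1) hnear
    rw [hcoe] at h15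
    linarith
  · intro I _ R n hn
    obtain ⟨d, hd⟩ := hPFE I R
    exact simple_of_min hFIN hFEX hCST K h3 (B / 2) C (by positivity) β
      ⟨hβc, hβmv, s0, hs0, hβg⟩ hmin I R d hd n ((hPFM I R d hd n β).1 hn)

end Pool.Agent.Helper45.FG
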