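import Pool.Agent.Helper45.FG.Fin
import Pool.Agent.Helper45.FG.Min
import Pool.Agent.Helper45.FG.M_FIN
import Pool.Agent.Helper42.FG.M_FCH
import Pool.Agent.Helper36.FG.M_FGK
import Pool.Agent.Helper8.FG.M_FEX
import Pool.Agent.Helper26.FG.M_FGG
import Pool.Agent.Helper43.FG.M_PFE
import Pool.Agent.Helper29.FG.M_PFM
import Pool.Agent.Helper9.FG.M_DIR
import Pool.Agent.Helper72.FG.M_ADM
import Pool.Agent.Helper55.FG.M_NRM
import Pool.Agent.Helper84.FG.M_STB
import Pool.Agent.Helper98.FG.M_CST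
import Pool.Agent.Helper22.FG.M_NGR
import Pool.Agent.Helper33.FG.M_PRD
import Pool.Agent.Helper86.FG.M_GPX
import Pool.Agent.Helper7.FG.M_GWI
import Pool.Agent.Helper62.FG.M_QUA
import Pool.Agent.Helper51.FG.M_QRL

/-!
Project FG: assembly of all modules of part 1.
-/

set_option autoImplicit false

namespace Pool.Agent.Helper45.FG

theorem aFCH : StFCH := Pool.Agent.Helper42.FG.hFCH

theorem aFGK : StFGK := Pool.Agent.Helper36.FG.hFGK aFCH hFIN

theorem aFEX : StFEX := Pool.Agent.Helper8.FG.hFEX aFCH hFIN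

theorem aFGG : StFGG := Pool.Agent.Helper26.FG.hFGG aFCH hFIN

theorem aPFE : StPFE := Pool.Agent.Helper43.FG.hPFE

theorem aPFM : StPFM := Pool.Agent.Helper29.FG.hPFM hFIN

theorem aADM : StADM := Pool.Agent.Helper72.FG.hADM Pool.Agent.Helper9.FG.hDIR

theorem aNRM : StNRM := Pool.Agent.Helper55.FG.hNRM

theorem aSTB : StSTB := Pool.Agent.Helper84.FG.hSTB

theorem aCST : StCST := Pool.Agent.Helper98.FG.hCST hFIN aFGK aFEX aNRM aSTB

theorem aPRD : StPRD := Pool.Agent.Helper33.FG.hPRD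

theorem aQRL : StQRL :=
  Pool.Agent.Helper51.FG.hQRL hFIN Pool.Agent.Helper22.FG.hNGR aPRD Pool.Agent.Helper62.FG.hQUA

theorem hall : StFNL :=
  hFNL hFIN aFGG aPFE aPFM aADM aCST aPRD Pool.Agent.Helper86.FG.hGPX Pool.Agent.Helper7.FG.hGWI aQRL

theorem hsim : StSIM := hSIM hFIN aFEX aPFE aPFM aADM aNRM aSTB aCST

end Pool.Agent.Helper45.FG
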