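import Pool.Agent.Helper45.FG.St3

/-!
Project FG, part 2: the final statement on the size of the fusion ring and its assembly.
-/

set_option autoImplicit false

namespace Pool.Agent.Helper45.FG

open scoped BigOperators

/-- Final statement, part 2. -/
def StBIG : Prop :=
  ∀ (K : IntermediateField ℚ ℝ), FiniteDimensional ℚ K → IsGalois ℚ K → 3 ≤ Module.finrank ℚ K →
    ∃ c : ℝ, 0 < c ∧ ∀ B : ℝ, 1 ≤ c * B → ∃ β : K, Cand K β ∧ B ≤ (β : ℝ) ∧ (β : ℝ) ≤ B + 1 ∧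
      ∀ (I : Type) [Fintype I] (R : FusionRing I) (n : I → ℕ), IsFP R n (β : ℝ) →
        ∀ d : I → ℝ, (∀ i, IsFP R (simple i) (d i)) →
          c * (β : ℝ) ^ ((Module.finrank ℚ K + 1) * (Module.finrank ℚ K - 2)) ≤
            (∑ i, d i ^ 2) ^ (4 * (Module.finrank ℚ K - 1))

private lemma sum_simple2 {I : Type} [Fintype I] (d : I → ℝ) (i : I) :
    ∑ j, ((simple i j : ℕ) : ℝ) * d j = d i := by
  classical
  unfold simple
  simp

theorem hBIG (hPFE : StPFE) (hPFM : StPFM) (hNFE : StNFE) (hSIR : StSIR) : StBIG := by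
  classical
  intro K hK1 hK2 h3
  have hcard : 1 < Fintype.card (K ≃ₐ[ℚ] K) := by
    rw [← Nat.card_eq_fintype_card, IsGalois.card_aut_eq_finrank]
    omega
  obtain ⟨s, hs⟩ : ∃ s : K ≃ₐ[ℚ] K, s ≠ 1 := Fintype.exists_ne_of_one_lt_card hcard 1
  obtain ⟨C, hC, H⟩ := hNFE K hK1 hK2 h3 s hs
  set m := Module.finrank ℚ K with hm
  set D : ℝ := 64 ^ (m - 1) * C ^ (m + 1) with hD
  have hC0 : 0 < C := by linarith
  have hD0 : 0 < D := by positivity
  have hCD : C ≤ D := by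
    have h1 : (1:ℝ) ≤ 64 ^ (m - 1) := one_le_pow₀ (by norm_num)
    have h2 : C ^ 1 ≤ C ^ (m + 1) := pow_le_pow_right₀ hC (by omega)
    rw [pow_one] at h2
    calc C ≤ C ^ (m + 1) := h2
      _ = 1 * C ^ (m + 1) := (one_mul _).symm
      _ ≤ 64 ^ (m - 1) * C ^ (m + 1) := mul_le_mul_of_nonneg_right h1 (by positivity)
  have h2p : (1:ℝ) ≤ 2 ^ ((m + 1) * (m - 2)) := one_le_pow₀ (by norm_num)
  refine ⟨1 / (2 ^ ((m + 1) * (m - 2)) * D), by positivity, ?_⟩
  intro B hB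
  have hBC : C ≤ B := by
    have h0 : (0:ℝ) < 2 ^ ((m + 1) * (m - 2)) * D := by positivity
    have h4 : 2 ^ ((m + 1) * (m - 2)) * D ≤ B := by
      have := mul_le_mul_of_nonneg_left hB h0.le
      rw [mul_one] at this
      calc 2 ^ ((m + 1) * (m - 2)) * D
          ≤ 2 ^ ((m + 1) * (m - 2)) * D * (1 / (2 ^ ((m + 1) * (m - 2)) * D) * B) := this
        _ = B := by field_simp
    have h5 : D ≤ 2 ^ ((m + 1) * (m - 2)) * D := by
      calc D = 1 * D := (one_mul _).symm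
        _ ≤ 2 ^ ((m + 1) * (m - 2)) * D := mul_le_mul_of_nonneg_right h2p hD0.le
    linarith
  obtain ⟨β, hc, h1, h2, hpos, hgap⟩ := H B hBC
  refine ⟨β, hc, h1, h2, ?_⟩
  intro I _ R n hn e he
  obtain ⟨d, hd⟩ := hPFE I R
  have hed : e = d := by
    funext i
    have := (hPFM I R d hd (simple i) (e i)).1 (he i)
    rw [this, sum_simple2]
  subst hed
  have hn' := (hPFM I R e hd n β).1 hn
  have hB0 : 0 < B := by linarith
  have hS := hSIR K hK1 hK2 h3 β s B C hB0 hC0 hpos hgap I R e hd n hn'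
  have hβ2 : (β : ℝ) ≤ 2 * B := by linarith
  have hβ0 : 0 ≤ (β : ℝ) := by linarith
  calc 1 / (2 ^ ((m + 1) * (m - 2)) * D) * (β : ℝ) ^ ((m + 1) * (m - 2))
      ≤ 1 / (2 ^ ((m + 1) * (m - 2)) * D) * (2 * B) ^ ((m + 1) * (m - 2)) :=
        mul_le_mul_of_nonneg_left (pow_le_pow_left₀ hβ0 hβ2 _) (by positivity)
    _ = 1 / D * B ^ ((m + 1) * (m - 2)) := by rw [mul_pow]; field_simp
    _ ≤ 1 / D * (D * (∑ i, e i ^ 2) ^ (4 * (m - 1))) :=
        mul_le_mul_of_nonneg_left hS (by positivity)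
    _ = (∑ i, e i ^ 2) ^ (4 * (m - 1)) := by field_simp

end Pool.Agent.Helper45.FG
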