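import Pool.Agent.Helper45.FG.All
import Pool.Agent.Helper45.FG.Fin3
import Pool.Agent.Helper7.FG.M_COC
import Pool.Agent.Helper66.FG.M_PIG
import Pool.Agent.Helper77.FG.M_NFE
import Pool.Agent.Helper29.FG.M_EXC
import Pool.Agent.Helper36.FG.M_NRO
import Pool.Agent.Helper28.FG.M_GAR
import Pool.Agent.Helper92.FG.M_SIR

/-!
Project FG: assembly of all modules of part 2.
-/

set_option autoImplicit false

namespace Pool.Agent.Helper45.FG

theorem aNFE : StNFE := Pool.Agent.Helper77.FG.hNFE Pool.Agent.Helper7.FG.hCOC Pool.Agent.Helper66.FG.hPIG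

theorem aGAR : StGAR := Pool.Agent.Helper28.FG.hGAR aFCH hFIN

theorem aSIR : StSIR :=
  Pool.Agent.Helper92.FG.hSIR hFIN aFGK aFEX Pool.Agent.Helper29.FG.hEXC Pool.Agent.Helper36.FG.hNRO aGAR

theorem hbig : StBIG := hBIG aPFE aPFM aNFE aSIR

end Pool.Agent.Helper45.FG
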