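import Pool.Agent.Helper45.FG.St4
import Pool.Agent.Helper45.FG.Min

/-!
Project FG, part 4: necessarily simple candidates at every scale.
-/

set_option autoImplicit false

namespace Pool.Agent.Helper45.FG

open scoped BigOperators

/-- candidates near the fixed space of `H` -/
def NearH (K : IntermediateField ℚ ℝ) (H : Subgroup (K ≃ₐ[ℚ] K)) (ε : ℝ) (x : K) : Prop :=
  Cand K x ∧ (∃ s ∈ H, s x ≠ x) ∧ ∀ t ∈ H, (x : ℝ) - ((t x : K) : ℝ) ≤ ε

theorem exists_minH (K : IntermediateField ℚ ℝ) [FiniteDimensional ℚ K] [IsGalois ℚ K]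
    (H : Subgroup (K ≃ₐ[ℚ] K)) (ε : ℝ) (b : K) (hb : NearH K H ε b) :
    ∃ β : K, NearH K H ε β ∧ (β : ℝ) ≤ (b : ℝ) ∧ ∀ x : K, NearH K H ε x → (β : ℝ) ≤ (x : ℝ) := by
  have hfin : {x : K | NearH K H ε x ∧ (x : ℝ) ≤ (b : ℝ)}.Finite :=
    (finite_cand K (b : ℝ)).subset (fun x hx => ⟨hx.1.1, hx.2⟩)
  obtain ⟨β, hβ, hmin⟩ := hfin.exists_minimalFor (fun x : K => (x : ℝ)) _ ⟨b, hb, le_rfl⟩
  refine ⟨β, hβ.1, hβ.2, ?_⟩
  intro x hx
  by_cases h : (x : ℝ) ≤ (b : ℝ)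
  · by_contra hlt
    push Not at hlt
    have := hmin ⟨hx, h⟩ hlt.le
    exact absurd (lt_of_le_of_lt this hlt) (lt_irrefl _)
  · push Not at h
    exact le_trans hβ.2 h.le

theorem simple_of_minH (hFIN : StFIN) (hFGK : StFGK) (hFEX : StFEX)
    (K : IntermediateField ℚ ℝ) [FiniteDimensional ℚ K] [IsGalois ℚ K]
    (H : Subgroup (K ≃ₐ[ℚ] K)) (ε : ℝ) (β : K) (hβ : NearH K H ε β)
    (hmin : ∀ x : K, NearH K H ε x → (β : ℝ) ≤ (x : ℝ))
    (I : Type) [Fintype I] (R : FusionRing I) (d : I → ℝ) (hd : IsDim R d) (n : I → ℕ)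
    (hn : (β : ℝ) = ∑ i, (n i : ℝ) * d i) : ∃ i, n = simple i := by
  classical
  obtain ⟨hc, ⟨s, hsH, hs⟩, hg⟩ := hβ
  have hmem : ∀ i, n i ≠ 0 → d i ∈ K :=
    hFGK K inferInstance I R d hd n (by rw [← hn]; exact β.2)
  -- the dimensions as elements of K, zero where n is zero
  let y : I → K := fun i => if h : n i ≠ 0 then ⟨d i, hmem i h⟩ else 0
  have hy : ∀ i, n i ≠ 0 → ((y i : K) : ℝ) = d i := by
    intro i hi
    simp only [y, dif_pos hi]
  have hsum : β = ∑ i, (n i : K) * y i := by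
    apply Subtype.ext
    rw [hn]
    push_cast
    apply Finset.sum_congr rfl
    intro i _
    by_cases hi : n i = 0
    · rw [hi]; simp
    · rw [hy i hi]
  have hterm : ∀ t : K ≃ₐ[ℚ] K, (β : ℝ) - ((t β : K) : ℝ) =
      ∑ i, (n i : ℝ) * (((y i : K) : ℝ) - ((t (y i) : K) : ℝ)) := by
    intro t
    have h1 : t β = ∑ i, (n i : K) * t (y i) := by
      conv_lhs => rw [hsum]
      rw [map_sum]
      apply Finset.sum_congr rfl
      intro i _
      rw [map_mul, map_natCast]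
    rw [h1]
    conv_lhs => rw [hsum]
    push_cast
    rw [← Finset.sum_sub_distrib]
    apply Finset.sum_congr rfl
    intro i _
    ring
  have hnn : ∀ (t : K ≃ₐ[ℚ] K) (i : I), 0 ≤ (n i : ℝ) * (((y i : K) : ℝ) - ((t (y i) : K) : ℝ)) := by
    intro t i
    by_cases hi : n i = 0
    · rw [hi]; simp
    · have h1 := hFEX K inferInstance I R d hd t i (y i) (hy i hi)
      exact mul_nonneg (Nat.cast_nonneg _) (sub_nonneg.2 (le_trans (le_abs_self _) h1))
  -- a constituent moved by s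
  obtain ⟨i, hi, hsi⟩ : ∃ i, n i ≠ 0 ∧ s (y i) ≠ y i := by
    by_contra hcon
    push Not at hcon
    apply hs
    rw [hsum, map_sum]
    apply Finset.sum_congr rfl
    intro i _
    rw [map_mul, map_natCast]
    by_cases hi : n i = 0
    · rw [hi]; simp
    · rw [hcon i hi]
  have hni : (1 : ℝ) ≤ n i := by
    exact_mod_cast Nat.one_le_iff_ne_zero.2 hi
  have hint : IsIntegral ℤ (y i) := by
    have h4 : IsIntegral ℤ (algebraMap K ℝ (y i)) := by
      have h5 : algebraMap K ℝ (y i) = d i := hy i hi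
      rw [h5]
      exact (hFIN I R d hd).2.1 i
    exact (isIntegral_algebraMap_iff (algebraMap K ℝ).injective).1 h4
  have hnear : NearH K H ε (y i) := by
    refine ⟨⟨hint, by rw [hy i hi]; exact hd.pos i, ?_⟩, ⟨s, hsH, hsi⟩, ?_⟩
    · intro t'
      exact hFEX K inferInstance I R d hd t' i (y i) (hy i hi)
    · intro t ht
      have h1 : (n i : ℝ) * (((y i : K) : ℝ) - ((t (y i) : K) : ℝ)) ≤ (β : ℝ) - ((t β : K) : ℝ) := by
        rw [hterm t]
        exact Finset.single_le_sum (f := fun i => (n i : ℝ) * (((y i : K) : ℝ) - ((t (y i) : K) : ℝ)))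
          (fun j _ => hnn t j) (Finset.mem_univ i)
      have h2 := hFEX K inferInstance I R d hd t i (y i) (hy i hi)
      have h3 : 0 ≤ ((y i : K) : ℝ) - ((t (y i) : K) : ℝ) := sub_nonneg.2 (le_trans (le_abs_self _) h2)
      have h4 := hg t ht
      nlinarith
  have hle : (β : ℝ) ≤ d i := by
    rw [← hy i hi]
    exact hmin (y i) hnear
  have hsplit : (n i : ℝ) * d i + ∑ j ∈ Finset.univ.erase i, (n j : ℝ) * d j = ∑ j, (n j : ℝ) * d j :=
    Finset.add_sum_erase Finset.univ (fun j => (n j : ℝ) * d j) (Finset.mem_univ i)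
  have hnn' : ∀ j ∈ Finset.univ.erase i, 0 ≤ (n j : ℝ) * d j := fun j _ =>
    mul_nonneg (Nat.cast_nonneg _) (hd.pos j).le
  have hsum' : 0 ≤ ∑ j ∈ Finset.univ.erase i, (n j : ℝ) * d j := Finset.sum_nonneg hnn'
  have hdi := hd.pos i
  have h6 : d i ≤ (n i : ℝ) * d i := by nlinarith
  have hz : ∑ j ∈ Finset.univ.erase i, (n j : ℝ) * d j = 0 := by linarith
  have hone : (n i : ℝ) = 1 := by
    have h7 : (n i : ℝ) * d i = d i := by linarith
    have h8 : ((n i : ℝ) - 1) * d i = 0 := by rw [sub_mul, h7]; ring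
    rcases mul_eq_zero.1 h8 with h9 | h9
    · linarith
    · exact absurd h9 hdi.ne'
  refine ⟨i, ?_⟩
  funext j
  unfold simple
  by_cases hj : j = i
  · subst hj
    rw [if_pos rfl]
    exact_mod_cast hone
  · rw [if_neg hj]
    have h10 := (Finset.sum_eq_zero_iff_of_nonneg hnn').1 hz j
      (Finset.mem_erase.2 ⟨hj, Finset.mem_univ j⟩)
    rcases mul_eq_zero.1 h10 with h11 | h11
    · exact_mod_cast h11
    · exact absurd h11 (hd.pos j).ne'

private lemma sum_simple4 {I : Type} [Fintype I] (d : I → ℝ) (i : I) :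
    ∑ j, ((simple i j : ℕ) : ℝ) * d j = d i := by
  classical
  unfold simple
  simp

/-- Necessarily simple candidates at every scale. -/
def StSCA : Prop :=
  ∀ (K : IntermediateField ℚ ℝ), FiniteDimensional ℚ K → IsGalois ℚ K →
    ∀ H : Subgroup (K ≃ₐ[ℚ] K), H ≠ ⊥ → H ≠ ⊤ →
    ∃ c : ℝ, 0 < c ∧ ∀ B : ℝ, 1 ≤ c * B → ∃ β : K, Cand K β ∧ c * B ≤ (β : ℝ) ∧ (β : ℝ) ≤ B ∧
      (∀ t ∈ H, c * (β : ℝ) ^ (H.index - 1) * ((β : ℝ) - ((t β : K) : ℝ)) ≤ 1) ∧
      (∃ s ∈ H, ((s β : K) : ℝ) < (β : ℝ)) ∧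
      (∃ t : K ≃ₐ[ℚ] K, t ∉ H ∧ ((t β : K) : ℝ) < 2 - (β : ℝ)) ∧
      ∀ (I : Type) [Fintype I] (R : FusionRing I) (n : I → ℕ), IsFP R n (β : ℝ) →
        (∃ i, n = simple i) ∧
        ∀ d : I → ℝ, (∀ i, IsFP R (simple i) (d i)) →
          c * (β : ℝ) ^ (H.index + 1) ≤ (∑ i, d i ^ 2) ^ 2

theorem hSCA (hFIN : StFIN) (hFGK : StFGK) (hFEX : StFEX) (hEXC : StEXC) (hPFE : StPFE)
    (hPFM : StPFM) (hGAR : StGAR) (hNFH : StNFH) (hNRH : StNRH) : StSCA := by
  classical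
  intro K hK1 hK2 H hH1 hH2
  obtain ⟨C, hC, hex⟩ := hNFH K hK1 hK2 H hH2
  have hC0 : 0 < C := by linarith
  have hidx : 2 ≤ H.index := by
    have h1 : H.index ≠ 0 := Subgroup.index_ne_zero_of_finite
    have h2 : H.index ≠ 1 := fun h => hH2 (Subgroup.index_eq_one.1 h)
    omega
  have hcard : Nat.card (K ≃ₐ[ℚ] K) = Module.finrank ℚ K := IsGalois.card_aut_eq_finrank ℚ K
  have hprod : Nat.card H * H.index = Module.finrank ℚ K := by
    rw [← hcard]; exact H.card_mul_index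
  have hh : 1 ≤ Nat.card H := Nat.card_pos
  set h := Nat.card H with hdef
  set k := H.index with kdef
  set m := Module.finrank ℚ K with mdef
  have hmh : 1 ≤ m - h := by
    have : h * 2 ≤ h * k := Nat.mul_le_mul_left h hidx
    omega
  have hmhk : m - h = h * (k - 1) := by
    rw [← hprod, Nat.mul_sub, Nat.mul_one]
  -- the constant
  set D : ℝ := 8 * 4 ^ k * C ^ h * C with hD
  have hCh : 1 ≤ C ^ h := one_le_pow₀ hC
  have h2k : (1:ℝ) ≤ 4 ^ k := one_le_pow₀ (by norm_num)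
  have hD0 : 0 < D := by positivity
  have hDC : 8 * C ≤ D := by
    have : (1:ℝ) ≤ 4 ^ k * C ^ h := by nlinarith
    calc 8 * C = 8 * 1 * C := by ring
      _ ≤ 8 * (4 ^ k * C ^ h) * C := by
          apply mul_le_mul_of_nonneg_right _ hC0.le
          linarith
      _ = D := by rw [hD]; ring
  have hD1 : 1 ≤ D := by linarith
  have hcc : 1 / (2 * D) ≤ 1 / D := by
    apply one_div_le_one_div_of_le hD0
    linarith
  refine ⟨1 / (2 * D), by positivity, ?_⟩
  intro B hB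
  have hBD2 : 2 * D ≤ B := by
    have := mul_le_mul_of_nonneg_left hB (by positivity : (0:ℝ) ≤ 2 * D)
    rw [mul_one] at this
    calc 2 * D ≤ 2 * D * (1 / (2 * D) * B) := this
      _ = B := by field_simp
  have hBD : D ≤ B := by linarith
  have hB0 : 0 < B := by linarith
  have hB2 : 0 < B / 2 := by positivity
  obtain ⟨b, hbc, hb1, hb2, hbpos, hbg⟩ := hex (B / 2) (by linarith)
  -- a nontrivial element of H
  obtain ⟨s0, hs0H, hs01⟩ : ∃ s ∈ H, s ≠ 1 := by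
    by_contra hcon
    push Not at hcon
    exact hH1 ((Subgroup.eq_bot_iff_forall H).2 hcon)
  set ε : ℝ := C / (B / 2) ^ (k - 1) with hε
  have hε0 : 0 < ε := by positivity
  have hnb : NearH K H ε b := by
    refine ⟨hbc, ⟨s0, hs0H, ?_⟩, ?_⟩
    · intro he
      have := hbpos s0 hs01
      rw [he] at this
      linarith
    · intro t ht
      rw [hε, le_div_iff₀ (by positivity)]
      exact hbg t ht
  obtain ⟨β, hβ, hβb, hmin⟩ := exists_minH K H ε b hnb
  have hβle : (β : ℝ) ≤ B := by linarith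
  have hβ0 : 0 < (β : ℝ) := hβ.1.2.1
  have hN := hNRH K hK1 hK2 H β ε hβ.1.1 hβ.1.2.2 hβ.2.2 hβ.2.1
  rw [← hdef, ← mdef] at hN
  -- lower bound for β
  have hlow : 1 / D * B ≤ (β : ℝ) := by
    have h1 : (B / 2) ^ (m - h) ≤ (C ^ h * (2 * (β : ℝ))) ^ (m - h) := by
      have h2 : ε ^ h * ((B / 2) ^ (k - 1)) ^ h = C ^ h := by
        rw [← mul_pow, hε]
        congr 1
        field_simp
      have h3 : ((B / 2) ^ (k - 1)) ^ h = (B / 2) ^ (m - h) := by
        rw [← pow_mul, hmhk, mul_comm]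
      have h4 : (B / 2) ^ (m - h) * 1 ≤ (B / 2) ^ (m - h) * (ε ^ h * (2 * (β : ℝ)) ^ (m - h)) :=
        mul_le_mul_of_nonneg_left hN (by positivity)
      calc (B / 2) ^ (m - h) = (B / 2) ^ (m - h) * 1 := by ring
        _ ≤ (B / 2) ^ (m - h) * (ε ^ h * (2 * (β : ℝ)) ^ (m - h)) := h4
        _ = (ε ^ h * ((B / 2) ^ (k - 1)) ^ h) * (2 * (β : ℝ)) ^ (m - h) := by rw [h3]; ring
        _ = C ^ h * (2 * (β : ℝ)) ^ (m - h) := by rw [h2]
        _ ≤ (C ^ h) ^ (m - h) * (2 * (β : ℝ)) ^ (m - h) := by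
            apply mul_le_mul_of_nonneg_right _ (by positivity)
            calc C ^ h = (C ^ h) ^ 1 := (pow_one _).symm
              _ ≤ (C ^ h) ^ (m - h) := pow_le_pow_right₀ hCh hmh
        _ = (C ^ h * (2 * (β : ℝ))) ^ (m - h) := (mul_pow _ _ _).symm
    have h5 : B / 2 ≤ C ^ h * (2 * (β : ℝ)) :=
      le_of_pow_le_pow_left₀ (by omega) (by positivity) h1
    have h6 : 4 * C ^ h ≤ D := by
      have h7 : (1:ℝ) ≤ 4 ^ k * C := by nlinarith
      calc 4 * C ^ h ≤ 8 * C ^ h * 1 := by nlinarith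
        _ ≤ 8 * C ^ h * (4 ^ k * C) := mul_le_mul_of_nonneg_left h7 (by positivity)
        _ = D := by rw [hD]; ring
    have h8 : B ≤ D * (β : ℝ) := by
      calc B = 2 * (B / 2) := by ring
        _ ≤ 2 * (C ^ h * (2 * (β : ℝ))) := mul_le_mul_of_nonneg_left h5 (by norm_num)
        _ = 4 * C ^ h * (β : ℝ) := by ring
        _ ≤ D * (β : ℝ) := mul_le_mul_of_nonneg_right h6 hβ0.le
    calc 1 / D * B ≤ 1 / D * (D * (β : ℝ)) := mul_le_mul_of_nonneg_left h8 (by positivity)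
      _ = (β : ℝ) := by field_simp
  -- β ^ (k-1) * ε ≤ 2 ^ (k-1) * C
  have hpowε : (β : ℝ) ^ (k - 1) * ε ≤ 2 ^ (k - 1) * C := by
    have h1 : (β : ℝ) ^ (k - 1) ≤ B ^ (k - 1) := pow_le_pow_left₀ hβ0.le hβle _
    calc (β : ℝ) ^ (k - 1) * ε ≤ B ^ (k - 1) * ε := mul_le_mul_of_nonneg_right h1 hε0.le
      _ = 2 ^ (k - 1) * C := by
          rw [hε, div_pow]
          field_simp
  have h24 : (2:ℝ) ^ (k - 1) * C ≤ D / 2 := by
    have h1 : (2:ℝ) ^ (k - 1) ≤ 4 ^ k := by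
      calc (2:ℝ) ^ (k - 1) ≤ 4 ^ (k - 1) := pow_le_pow_left₀ (by norm_num) (by norm_num) _
        _ ≤ 4 ^ k := pow_le_pow_right₀ (by norm_num) (by omega)
    have h2 : (2:ℝ) ^ (k - 1) * C ≤ 4 ^ k * C := mul_le_mul_of_nonneg_right h1 hC0.le
    have h3 : (4:ℝ) ^ k * C * 1 ≤ 4 ^ k * C * C ^ h :=
      mul_le_mul_of_nonneg_left hCh (by positivity)
    have h4 : D / 2 = 4 * (4 ^ k * C * C ^ h) := by rw [hD]; ring
    rw [h4]
    have h5 : 0 < (4:ℝ) ^ k * C * C ^ h := by positivity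
    linarith
  have hβ2 : 2 ≤ (β : ℝ) := by
    have h1 : (2:ℝ) ≤ 1 / D * B := by
      calc (2:ℝ) = 1 / D * (2 * D) := by field_simp
        _ ≤ 1 / D * B := mul_le_mul_of_nonneg_left hBD2 (by positivity)
    linarith
  have hε1 : ε ≤ 1 := by
    rw [hε, div_le_one (by positivity)]
    have h1 : (1:ℝ) ≤ B / 2 := by linarith
    calc C ≤ B / 2 := by linarith
      _ = (B / 2) ^ 1 := (pow_one _).symm
      _ ≤ (B / 2) ^ (k - 1) := pow_le_pow_right₀ h1 (by omega)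
  have hlow' : 1 / (2 * D) * B ≤ (β : ℝ) :=
    le_trans (mul_le_mul_of_nonneg_right hcc hB0.le) hlow
  refine ⟨β, hβ.1, hlow', hβle, ?_, ?_, ?_, ?_⟩
  · intro t ht
    have h1 := hβ.2.2 t ht
    have h2 : (β : ℝ) ^ (k - 1) * ((β : ℝ) - ((t β : K) : ℝ)) ≤ (β : ℝ) ^ (k - 1) * ε :=
      mul_le_mul_of_nonneg_left h1 (by positivity)
    have h0 : 0 ≤ (β : ℝ) ^ (k - 1) * ((β : ℝ) - ((t β : K) : ℝ)) :=
      mul_nonneg (by positivity) (sub_nonneg.2 (le_trans (le_abs_self _) (hβ.1.2.2 t)))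
    calc 1 / (2 * D) * (β : ℝ) ^ (k - 1) * ((β : ℝ) - ((t β : K) : ℝ))
        = 1 / (2 * D) * ((β : ℝ) ^ (k - 1) * ((β : ℝ) - ((t β : K) : ℝ))) := by ring
      _ ≤ 1 / D * ((β : ℝ) ^ (k - 1) * ((β : ℝ) - ((t β : K) : ℝ))) :=
          mul_le_mul_of_nonneg_right hcc h0
      _ ≤ 1 / D * (D / 2) := mul_le_mul_of_nonneg_left (by linarith) (by positivity)
      _ = 1 / 2 := by field_simp
      _ ≤ 1 := by norm_num
  · obtain ⟨s, hsH, hs⟩ := hβ.2.1
    refine ⟨s, hsH, ?_⟩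
    have h11 : ((s β : K) : ℝ) ≤ (β : ℝ) := le_trans (le_abs_self _) (hβ.1.2.2 s)
    rcases lt_or_eq_of_le h11 with h12 | h12
    · exact h12
    · exact absurd (Subtype.ext h12) hs
  · -- otherwise β - 1 would be a smaller element
    by_contra hcon
    push Not at hcon
    have hsub : ∀ t : K ≃ₐ[ℚ] K, ((t (β - 1) : K) : ℝ) = ((t β : K) : ℝ) - 1 := by
      intro t
      rw [map_sub, map_one]
      push_cast
      ring
    have hcoe : ((β - 1 : K) : ℝ) = (β : ℝ) - 1 := by push_cast; ring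
    have hnear : NearH K H ε (β - 1) := by
      refine ⟨⟨hβ.1.1.sub isIntegral_one, by rw [hcoe]; linarith, ?_⟩, ?_, ?_⟩
      · intro t
        rw [hsub, hcoe, abs_le]
        have h11 : ((t β : K) : ℝ) ≤ (β : ℝ) := le_trans (le_abs_self _) (hβ.1.2.2 t)
        refine ⟨?_, by linarith⟩
        by_cases ht : t ∈ H
        · have := hβ.2.2 t ht
          linarith
        · have := hcon t ht
          linarith
      · obtain ⟨t, htH, ht⟩ := hβ.2.1
        refine ⟨t, htH, ?_⟩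
        intro h13
        apply ht
        rw [map_sub, map_one] at h13
        exact sub_left_inj.1 h13
      · intro t ht
        rw [hsub, hcoe]
        have h14 : (β : ℝ) - 1 - (((t β : K) : ℝ) - 1) = (β : ℝ) - ((t β : K) : ℝ) := by ring
        rw [h14]
        exact hβ.2.2 t ht
    have h15 := hmin (β - 1) hnear
    rw [hcoe] at h15
    linarith
  · intro I _ R n hn
    obtain ⟨d, hd⟩ := hPFE I R
    have hn' := (hPFM I R d hd n β).1 hn
    obtain ⟨i, hi⟩ := simple_of_minH hFIN hFGK hFEX K H ε β hβ hmin I R d hd n hn'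
    refine ⟨⟨i, hi⟩, ?_⟩
    intro e he
    have hed : e = d := by
      funext j
      have := (hPFM I R d hd (simple j) (e j)).1 (he j)
      rw [this, sum_simple4]
    subst hed
    rw [hi, sum_simple4] at hn'
    obtain ⟨s, hsH, hs⟩ := hβ.2.1
    obtain ⟨χ, hχ1, hχm, hχ⟩ := hEXC K hK1 I R e hd s
    have hχi := hχ i β hn'
    have hne : χ i ≠ (e i : ℂ) := by
      rw [hχi, ← hn']
      intro h
      apply hs
      apply Subtype.ext
      exact_mod_cast h
    have hG := hGAR I R e hd χ hχ1 hχm i hne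
    rw [hχi, Complex.ofReal_re, ← hn'] at hG
    set F := ∑ j, e j ^ 2 with hF
    have h1 := hβ.2.2 s hsH
    have h2 : (β : ℝ) ^ 2 ≤ 2 * ε * F ^ 2 := by
      calc (β : ℝ) ^ 2 ≤ 2 * ((β : ℝ) - ((s β : K) : ℝ)) * F ^ 2 := hG
        _ ≤ 2 * ε * F ^ 2 := by
            apply mul_le_mul_of_nonneg_right _ (by positivity)
            linarith
    have h3 : (β : ℝ) ^ (k + 1) = (β : ℝ) ^ (k - 1) * (β : ℝ) ^ 2 := by
      rw [← pow_add]
      congr 1
      omega
    calc 1 / (2 * D) * (β : ℝ) ^ (k + 1) ≤ 1 / D * (β : ℝ) ^ (k + 1) :=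
          mul_le_mul_of_nonneg_right hcc (by positivity)
      _ = 1 / D * ((β : ℝ) ^ (k - 1) * (β : ℝ) ^ 2) := by rw [h3]
      _ ≤ 1 / D * ((β : ℝ) ^ (k - 1) * (2 * ε * F ^ 2)) := by
          apply mul_le_mul_of_nonneg_left _ (by positivity)
          exact mul_le_mul_of_nonneg_left h2 (by positivity)
      _ = 1 / D * (2 * ((β : ℝ) ^ (k - 1) * ε) * F ^ 2) := by ring
      _ ≤ 1 / D * (2 * (D / 2) * F ^ 2) := by
          apply mul_le_mul_of_nonneg_left _ (by positivity)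
          apply mul_le_mul_of_nonneg_right _ (by positivity)
          linarith
      _ = F ^ 2 := by field_simp

end Pool.Agent.Helper45.FG
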