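import Pool.Agent.Helper45.FG.All2
import Pool.Agent.Helper45.FG.Fin4
import Pool.Agent.Helper29.FG.M_PIH
import Pool.Agent.Helper10.FG.M_NFH
import Pool.Agent.Helper25.FG.M_NRH

/-!
Project FG: assembly of part 4.
-/

set_option autoImplicit false

namespace Pool.Agent.Helper45.FG

theorem aNFH : StNFH := Pool.Agent.Helper10.FG.hNFH Pool.Agent.Helper7.FG.hCOC Pool.Agent.Helper29.FG.hPIH

theorem hsca : StSCA :=
  hSCA hFIN aFGK aFEX Pool.Agent.Helper29.FG.hEXC aPFE aPFM aGAR aNFH Pool.Agent.Helper25.FG.hNRH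

end Pool.Agent.Helper45.FG
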