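import Pool.Agent.Helper45.FG.Main

/-!
Project FG: the two final theorems in the form used by the hand-ins, conditional on the modules.
-/

set_option autoImplicit false

namespace Pool.Agent.Helper45.FG

open scoped BigOperators

/-- Every candidate of `K` is the dimension of an object of a fusion ring with Galois gap `γ`, for
one positive number `γ` depending only on `K`. -/
def GapFamily (K : IntermediateField ℚ ℝ) : Prop :=
  ∃ γ : ℝ, 0 < γ ∧ ∀ β : K, Cand K β →
    ∃ (I : Type) (_ : Fintype I) (R : FusionRing I) (n : I → ℕ), HasGap γ R ∧ IsFP R n (β : ℝ)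

theorem tfae_of (h : StFNL) (K : IntermediateField ℚ ℝ) (h1 : FiniteDimensional ℚ K)
    (h2 : IsGalois ℚ K) :
    List.TFAE [Module.finrank ℚ K ≤ 2, OneRing K, GapFamily K] := by
  tfae_have 1 → 2 := (h.1 K h1 h2).1
  tfae_have 2 → 3 := by
    rintro ⟨I, hI, R, H⟩
    obtain ⟨γ, hγ, hR⟩ := h.2.1 I R
    refine ⟨γ, hγ, ?_⟩
    intro β hβ
    obtain ⟨n, hn⟩ := H β hβ
    exact ⟨I, hI, R, n, hR, hn⟩
  tfae_have 3 → 1 := by
    rintro ⟨γ, hγ, H⟩
    by_contra hlt
    obtain ⟨B0, hB0⟩ := ((h.1 K h1 h2).2 (by omega)).2 γ hγ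
    obtain ⟨β, hβ, -, -, hno⟩ := hB0 B0 le_rfl
    obtain ⟨I, hI, R, n, hR, hn⟩ := H β hβ
    exact hno I R hR n hn
  tfae_finish

end Pool.Agent.Helper45.FG
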