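import Pool.Agent.Helper45.FG.St

/-!
Project FG: the final statement and its assembly.
-/

set_option autoImplicit false

namespace Pool.Agent.Helper45.FG

open scoped BigOperators

/-- All candidates of `K` are Frobenius-Perron dimensions of objects of one fusion ring. -/
def OneRing (K : IntermediateField ℚ ℝ) : Prop :=
  ∃ (I : Type) (_ : Fintype I) (R : FusionRing I),
    ∀ β : K, Cand K β → ∃ n : I → ℕ, IsFP R n (β : ℝ)

/-- In every fusion ring with an object of dimension `β` all simple constituents of that object have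
dimension `x` in `K`, with `0 ≤ x - t x` for all automorphisms `t` and `c * β * (x - t x) ^ (m - 2) ≤ 1`
for `t ≠ t0`, where `m` is the degree of `K`; and some simple constituent has dimension `x` with
`c * β ≤ x ^ 2` and is moved by some `t ≠ 1, t0`. -/
def Forces (K : IntermediateField ℚ ℝ) (c : ℝ) (t0 : K ≃ₐ[ℚ] K) (β : K) : Prop :=
  ∀ (I : Type) [Fintype I] (R : FusionRing I) (n : I → ℕ), IsFP R n (β : ℝ) →
    (∀ i, n i ≠ 0 → ∃ x : K, IsFP R (simple i) (x : ℝ) ∧ ∀ t : K ≃ₐ[ℚ] K,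
      0 ≤ (x : ℝ) - ((t x : K) : ℝ) ∧
      (t ≠ t0 → c * (β : ℝ) * ((x : ℝ) - ((t x : K) : ℝ)) ^ (Module.finrank ℚ K - 2) ≤ 1)) ∧
    ∃ i, n i ≠ 0 ∧ ∃ x : K, IsFP R (simple i) (x : ℝ) ∧
      (∃ t : K ≃ₐ[ℚ] K, t ≠ 1 ∧ t ≠ t0 ∧ ((t x : K) : ℝ) < (x : ℝ)) ∧
      c * (β : ℝ) ≤ (x : ℝ) ^ 2

/-- All simple objects of the fusion ring have dimension with Galois gap `γ`. -/
def HasGap {I : Type} [Fintype I] (γ : ℝ) (R : FusionRing I) : Prop :=
  ∀ (i : I) (x : ℝ), IsFP R (simple i) x → GalGap γ x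

/-- The final statement. -/
def StFNL : Prop :=
  (∀ (K : IntermediateField ℚ ℝ), FiniteDimensional ℚ K → IsGalois ℚ K →
    (Module.finrank ℚ K ≤ 2 → OneRing K) ∧
    (3 ≤ Module.finrank ℚ K →
      (∃ c : ℝ, 0 < c ∧ ∀ B : ℝ, 1 ≤ c * B → ∃ β : K, Cand K β ∧ B ≤ (β : ℝ) ∧ (β : ℝ) ≤ B + 1 ∧
        ∃ t0 : K ≃ₐ[ℚ] K, t0 ≠ 1 ∧ Forces K c t0 β) ∧
      (∀ γ : ℝ, 0 < γ → ∃ B0 : ℝ, ∀ B : ℝ, B0 ≤ B → ∃ β : K, Cand K β ∧ B ≤ (β : ℝ) ∧
        (β : ℝ) ≤ B + 1 ∧ ∀ (I : Type) [Fintype I] (R : FusionRing I), HasGap γ R →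
          ∀ n : I → ℕ, ¬ IsFP R n (β : ℝ)))) ∧
  (∀ (I : Type) [Fintype I] (R : FusionRing I), ∃ γ : ℝ, 0 < γ ∧ HasGap γ R) ∧
  (∀ (γ : ℝ), 0 < γ → ∀ (I J : Type) [Fintype I] [Fintype J] (R : FusionRing I) (S : FusionRing J),
    HasGap γ R → HasGap γ S → ∃ T : FusionRing (I × J),
      (∀ p q r, T.N p q r = R.N p.1 q.1 r.1 * S.N p.2 q.2 r.2) ∧ HasGap γ T) ∧
  (∀ (I : Type) [Fintype I] (R : FusionRing I),
    (∀ (i : I) (x : ℝ), IsFP R (simple i) x → ∃ m : ℕ, x ^ 2 = m) → ∀ γ : ℝ, 0 < γ → HasGap γ R)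

private lemma sum_simple {I : Type} [Fintype I] (d : I → ℝ) (i : I) :
    ∑ j, ((simple i j : ℕ) : ℝ) * d j = d i := by
  classical
  unfold simple
  simp

/-- assembly -/
theorem hFNL (hFIN : StFIN) (hFGG : StFGG) (hPFE : StPFE) (hPFM : StPFM) (hADM : StADM)
    (hCST : StCST) (hPRD : StPRD) (hGPX : StGPX) (hGWI : StGWI) (hQRL : StQRL) : StFNL := by
  have hS : ∀ (I : Type) [Fintype I] (R : FusionRing I) (d : I → ℝ), IsDim R d →
      ∀ (i : I) (x : ℝ), IsFP R (simple i) x ↔ x = d i := by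
    intro I _ R d hd i x
    rw [hPFM I R d hd (simple i) x, sum_simple]
  refine ⟨?_, ?_, ?_, ?_⟩
  · intro K hK1 hK2
    refine ⟨?_, ?_⟩
    · intro h
      obtain ⟨I, hI, R, d, hd, H⟩ := hQRL K hK1 hK2 h
      refine ⟨I, hI, R, ?_⟩
      intro β hβ
      obtain ⟨n, hn⟩ := H β hβ
      exact ⟨n, (hPFM I R d hd n β).2 hn⟩
    · intro h3
      obtain ⟨C, hC, H⟩ := hADM K hK1 hK2 h3
      have hm : 1 ≤ Module.finrank ℚ K - 2 := by omega
      set m := Module.finrank ℚ K - 2 with hmdef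
      refine ⟨?_, ?_⟩
      · refine ⟨1 / (8 * C), by positivity, ?_⟩
        intro B hB
        have hBC : 8 * C ≤ B := by
          have h0 : (0:ℝ) < 8 * C := by positivity
          have := mul_le_mul_of_nonneg_left hB h0.le
          rw [mul_one] at this
          calc 8 * C ≤ 8 * C * (1 / (8 * C) * B) := this
            _ = B := by field_simp
        have hB0 : 0 < B := by linarith
        obtain ⟨β, hc, h1, h2, hmv, t0, ht0, hg⟩ := H B (by linarith)
        refine ⟨β, hc, h1, h2, t0, ht0, ?_⟩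
        intro I _ R n hn
        obtain ⟨d, hd⟩ := hPFE I R
        have hn' := (hPFM I R d hd n β).1 hn
        obtain ⟨A1, i, hi, x, hx, hmx, hx2⟩ := hCST K hK1 hK2 h3 β t0 B C hB0 ht0 hmv hg I R d hd n hn'
        have hβ2 : (β : ℝ) ≤ 2 * B := by linarith
        refine ⟨?_, i, hi, x, (hS I R d hd i x).2 hx, hmx, ?_⟩
        · intro j hj
          obtain ⟨y, hy, hyt⟩ := A1 j hj
          refine ⟨y, (hS I R d hd j y).2 hy, ?_⟩
          intro t
          refine ⟨(hyt t).1, ?_⟩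
          intro ht
          have h5 := (hyt t).2 ht
          have h6 := (hyt t).1
          have h7 : 0 ≤ ((y : ℝ) - ((t y : K) : ℝ)) ^ m := pow_nonneg h6 _
          have h8 : (β : ℝ) * ((y : ℝ) - ((t y : K) : ℝ)) ^ m ≤ 2 * C := by
            calc (β : ℝ) * ((y : ℝ) - ((t y : K) : ℝ)) ^ m
                ≤ (2 * B) * ((y : ℝ) - ((t y : K) : ℝ)) ^ m := mul_le_mul_of_nonneg_right hβ2 h7
              _ = 2 * (((y : ℝ) - ((t y : K) : ℝ)) ^ m * B) := by ring
              _ ≤ 2 * C := by linarith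
          calc 1 / (8 * C) * (β : ℝ) * ((y : ℝ) - ((t y : K) : ℝ)) ^ m
              = 1 / (8 * C) * ((β : ℝ) * ((y : ℝ) - ((t y : K) : ℝ)) ^ m) := by ring
            _ ≤ 1 / (8 * C) * (2 * C) := mul_le_mul_of_nonneg_left h8 (by positivity)
            _ = 1 / 4 := by field_simp; norm_num
            _ ≤ 1 := by norm_num
        · calc 1 / (8 * C) * (β : ℝ) ≤ 1 / (8 * C) * (2 * B) :=
                mul_le_mul_of_nonneg_left hβ2 (by positivity)
            _ ≤ 1 / (8 * C) * (2 * (4 * C * (x : ℝ) ^ 2)) := by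
                apply mul_le_mul_of_nonneg_left _ (by positivity)
                linarith
            _ = (x : ℝ) ^ 2 := by field_simp; ring
      · intro γ hγ
        have hmin : 0 < min γ (1 / 2) := lt_min hγ (by norm_num)
        refine ⟨max (8 * C) (C / (min γ (1 / 2)) ^ m + 1), ?_⟩
        intro B hB
        have hB8 : 8 * C ≤ B := le_trans (le_max_left _ _) hB
        have hBg : C / (min γ (1 / 2)) ^ m < B := by
          have := le_trans (le_max_right _ _) hB
          linarith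
        have hB0 : 0 < B := by linarith
        obtain ⟨β, hc, h1, h2, hmv, t0, ht0, hg⟩ := H B (by linarith)
        refine ⟨β, hc, h1, h2, ?_⟩
        intro I _ R hR n hn
        obtain ⟨d, hd⟩ := hPFE I R
        have hn' := (hPFM I R d hd n β).1 hn
        obtain ⟨A1, i, hi, x, hx, ⟨t, ht1, htt0, htx⟩, hx2⟩ :=
          hCST K hK1 hK2 h3 β t0 B C hB0 ht0 hmv hg I R d hd n hn'
        obtain ⟨y, hy, hyt⟩ := A1 i hi
        have hyx : y = x := by
          apply Subtype.ext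
          rw [hy, hx]
        subst hyx
        have hgapx : GalGap γ (d i) := hR i (d i) ((hS I R d hd i (d i)).2 rfl)
        have hpow : ((y : ℝ) - ((t y : K) : ℝ)) ^ m * B ≤ C := (hyt t).2 htt0
        have h6 := (hyt t).1
        have hpow2 : ((y : ℝ) - ((t y : K) : ℝ)) ^ m < (min γ (1 / 2)) ^ m := by
          have hmp : 0 < (min γ (1 / 2)) ^ m := pow_pos hmin _
          rw [div_lt_iff₀ hmp] at hBg
          have h9 : ((y : ℝ) - ((t y : K) : ℝ)) ^ m * B < (min γ (1 / 2)) ^ m * B := by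
            calc ((y : ℝ) - ((t y : K) : ℝ)) ^ m * B ≤ C := hpow
              _ < B * (min γ (1 / 2)) ^ m := hBg
              _ = (min γ (1 / 2)) ^ m * B := by ring
          exact lt_of_mul_lt_mul_right h9 hB0.le
        have hlt : (y : ℝ) - ((t y : K) : ℝ) < min γ (1 / 2) :=
          lt_of_pow_lt_pow_left₀ m hmin.le hpow2
        have hltg : (y : ℝ) - ((t y : K) : ℝ) < γ := lt_of_lt_of_le hlt (min_le_left _ _)
        have hlth : (y : ℝ) - ((t y : K) : ℝ) < 1 / 2 := lt_of_lt_of_le hlt (min_le_right _ _)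
        have hd1 : 1 ≤ d i := (hFIN I R d hd).2.2 i
        rw [← hy] at hd1
        have htpos : 0 < ((t y : K) : ℝ) := by linarith
        have hroot : Polynomial.aeval (((t y : K) : ℝ) : ℂ) (minpoly ℚ (d i)) = 0 := by
          have e1 : minpoly ℚ (d i) = minpoly ℚ (t y) := by
            rw [← hy]
            have e2 : minpoly ℚ ((y : K) : ℝ) = minpoly ℚ y :=
              minpoly.algebraMap_eq (A := ℚ) (B := K) (B' := ℝ) (algebraMap K ℝ).injective y
            have e3 : minpoly ℚ (t y) = minpoly ℚ y := minpoly.algEquiv_eq t y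
            rw [e2, e3]
          rw [e1]
          have e4 : Polynomial.aeval (t y) (minpoly ℚ (t y)) = 0 := minpoly.aeval ℚ (t y)
          have e5 : (((t y : K) : ℝ) : ℂ) = (algebraMap ℝ ℂ) (algebraMap K ℝ (t y)) := rfl
          rw [e5, ← IsScalarTower.algebraMap_apply K ℝ ℂ, Polynomial.aeval_algebraMap_apply, e4, map_zero]
        rcases hgapx _ hroot with h10 | h10
        · rw [Complex.norm_real, Real.norm_eq_abs, abs_of_pos htpos, ← hy] at h10
          linarith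
        · rw [Complex.norm_real, Real.norm_eq_abs, abs_of_pos htpos, ← hy] at h10
          linarith
  · intro I _ R
    obtain ⟨d, hd⟩ := hPFE I R
    obtain ⟨γ, hγ, H⟩ := hFGG I R d hd
    refine ⟨γ, hγ, ?_⟩
    intro i x hx
    rw [(hS I R d hd i x).1 hx]
    exact H i
  · intro γ hγ I J _ _ R S hR hS'
    obtain ⟨d, hd⟩ := hPFE I R
    obtain ⟨e, he⟩ := hPFE J S
    obtain ⟨T, hT1, hT2⟩ := hPRD I J R S d e hd he
    refine ⟨T, hT1, ?_⟩
    intro p x hx
    rw [(hS (I × J) T _ hT2 p x).1 hx]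
    apply hGPX γ (d p.1) (e p.2) hγ ((hFIN I R d hd).2.2 p.1) ((hFIN J S e he).2.2 p.2)
    · exact ((hFIN I R d hd).2.1 p.1).tower_top
    · exact ((hFIN J S e he).2.1 p.2).tower_top
    · exact hR p.1 (d p.1) ((hS I R d hd p.1 (d p.1)).2 rfl)
    · exact hS' p.2 (e p.2) ((hS J S e he p.2 (e p.2)).2 rfl)
  · intro I _ R h γ _ i x hx
    obtain ⟨d, hd⟩ := hPFE I R
    obtain ⟨m, hm⟩ := h i x hx
    have hxd := (hS I R d hd i x).1 hx
    exact hGWI γ x m (by rw [hxd]; exact hd.pos i) hm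

end Pool.Agent.Helper45.FG
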