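import Mathlib

/-!
Project FG (MP_7221b2_al, owner helper45): cyclotomic integers as dimensions in fusion categories.
Target: for every real Galois number field K of degree n >= 3 there is c > 0 such that for every large B
there is a candidate beta in K (algebraic integer, positive, at least the absolute value of each conjugate)
in [B, B+1] such that in EVERY fusion ring having an object of Frobenius-Perron dimension beta there is a
simple constituent of dimension x in K with x^2 >= c beta, and all constituents have dimension in K with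
tiny conjugate gaps. If n <= 2, ONE fusion ring realises all candidates of K.

Conventions: K is an IntermediateField of the reals over the rationals, finite dimensional (and Galois);
t runs over K ≃ₐ[ℚ] K; an element x of K is coerced to the reals.
-/

set_option autoImplicit false

namespace Pool.Agent.Helper45.FG

open scoped BigOperators

/-- A fusion ring with finite basis `I`: `N i j k` is the multiplicity of the basis element `k` in the
product of the basis elements `i` and `j`; `one` is the unit, `dual` the involution. -/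
structure FusionRing (I : Type) [Fintype I] where
  N : I → I → I → ℕ
  one : I
  dual : I → I
  one_mul_self : ∀ i, N one i i = 1
  one_mul_ne : ∀ i k, k ≠ i → N one i k = 0
  mul_one_self : ∀ i, N i one i = 1
  mul_one_ne : ∀ i k, k ≠ i → N i one k = 0
  assoc : ∀ i j k l, ∑ m, N i j m * N m k l = ∑ m, N j k m * N i m l
  dual_dual : ∀ i, dual (dual i) = i
  dual_mul : ∀ i j k, N (dual j) (dual i) (dual k) = N i j k
  dual_self : ∀ i, N i (dual i) one = 1
  dual_ne : ∀ i j, j ≠ dual i → N i j one = 0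

/-- The matrix of left multiplication by the object `∑ i, n i * X i`: its `(j, k)` entry is the
multiplicity of `k` in `(∑ i, n i * X i) * X j`. -/
def mulMat {I : Type} [Fintype I] (R : FusionRing I) (n : I → ℕ) : I → I → ℝ :=
  fun j k => ∑ i, (n i : ℝ) * (R.N i j k : ℝ)

/-- `z` is a real eigenvalue of the matrix `M`. -/
def IsEig {I : Type} [Fintype I] (M : I → I → ℝ) (z : ℝ) : Prop :=
  ∃ v : I → ℝ, v ≠ 0 ∧ ∀ j, ∑ k, M j k * v k = z * v j

/-- `β` is the Frobenius-Perron dimension of the object `∑ i, n i * X i`: the largest real eigenvalue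
of left multiplication by this object. -/
def IsFP {I : Type} [Fintype I] (R : FusionRing I) (n : I → ℕ) (β : ℝ) : Prop :=
  IsEig (mulMat R n) β ∧ ∀ z : ℝ, IsEig (mulMat R n) z → z ≤ β

open Classical in
/-- The object consisting of one copy of the simple object `i`. -/
noncomputable def simple {I : Type} (i : I) : I → ℕ := fun j => if j = i then 1 else 0

/-- `d` is a positive character of the fusion ring (the Frobenius-Perron dimension function). -/
structure IsDim {I : Type} [Fintype I] (R : FusionRing I) (d : I → ℝ) : Prop where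
  pos : ∀ i, 0 < d i
  mul : ∀ i j, d i * d j = ∑ k, (R.N i j k : ℝ) * d k

/-- `β ∈ K` is a candidate: an algebraic integer, positive and largest among its conjugates
(`K` Galois over the rationals). -/
def Cand (K : IntermediateField ℚ ℝ) (β : K) : Prop :=
  IsIntegral ℤ β ∧ 0 < (β : ℝ) ∧ ∀ t : K ≃ₐ[ℚ] K, |((t β : K) : ℝ)| ≤ (β : ℝ)

/-- The number `x` has Galois gap `γ`: every conjugate has absolute value `x` or at most `x - γ`. -/
def GalGap (γ x : ℝ) : Prop :=
  ∀ z : ℂ, Polynomial.aeval z (minpoly ℚ x) = 0 → ‖z‖ = x ∨ ‖z‖ + γ ≤ x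

/-- FCH. A complex character is dominated by the positive character.
Proof. If chi = 0 trivial. Otherwise let c = max over j of ‖chi j‖ / d j > 0 (I is finite, nonempty: R.one),
attained at j0. For every i: ‖chi i‖ ‖chi j0‖ = ‖∑_k N i j0 k * chi k‖ ≤ ∑_k N i j0 k * c * d k
= c * d i * d j0 = d i * ‖chi j0‖ and ‖chi j0‖ > 0. -/
def StFCH : Prop :=
  ∀ (I : Type) [Fintype I] (R : FusionRing I) (d : I → ℝ), IsDim R d →
    ∀ χ : I → ℂ, (∀ i j, χ i * χ j = ∑ k, (R.N i j k : ℂ) * χ k) → ∀ i, ‖χ i‖ ≤ d i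

/-- FIN. Dimensions of simple objects are algebraic integers, and are at least one.
Proof. d one = 1: d one * d one = ∑_k N one one k * d k = d one (one_mul_self, one_mul_ne) and d one > 0.
Integrality: the ℤ-submodule of ℝ spanned by the finite set range d is nonzero, finitely generated and
stable under multiplication by d i: `isIntegral_of_smul_mem_submodule`.
1 ≤ d i: d i * d (dual i) = ∑_k N i (dual i) k * d k ≥ d one = 1; and d (dual i) = d i: take j0 with
d (dual j) / d j maximal =: c; apply the same maximum argument as in FCH to the character j ↦ d (dual j)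
(it is multiplicative: d (dual j) * d (dual i) = ∑_k N (dual j) (dual i) (dual k) * d (dual k)
= ∑_k N i j k * d (dual k), reindexing by the involution dual), which gives d (dual i) ≤ d i for all i,
hence equality by dual_dual. -/
def StFIN : Prop :=
  ∀ (I : Type) [Fintype I] (R : FusionRing I) (d : I → ℝ), IsDim R d →
    d R.one = 1 ∧ (∀ i, IsIntegral ℤ (d i)) ∧ ∀ i, 1 ≤ d i

/-- FGK. The Galois trick: if the dimension of an object lies in K, so do the dimensions of its
simple constituents.
Proof. Let i0 with n i0 ≠ 0 and d i0 ∉ K. d i0 is integral over K (StFIN, tower). Its minimal polynomial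
over K has degree > 1 (`minpoly.natDegree_eq_one_iff`), is separable (characteristic zero) and has a root
z in ℂ with z ≠ d i0 (as a complex number): a separable polynomial with all complex roots equal to d i0
has degree one. With S = Set.range d, `IntermediateField.exists_algHom_adjoin_of_splits_of_aeval`
(F := K, E := ℝ, target ℂ, splitting because ℂ is algebraically closed) gives
φ : adjoin K S →ₐ[K] ℂ with φ (d i0) = z. Put chi j = φ (d j): a character. Then
∑ n i * chi i = φ (∑ n i * d i) = ∑ n i * d i because this element is in K. Taking real parts,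
∑ n i * (d i - re (chi i)) = 0 with all terms ≥ 0 by hFCH; so re (chi i0) = d i0, and ‖chi i0‖ ≤ d i0
forces chi i0 = d i0, contradiction. -/
def StFGK : Prop :=
  ∀ (K : IntermediateField ℚ ℝ), FiniteDimensional ℚ K →
    ∀ (I : Type) [Fintype I] (R : FusionRing I) (d : I → ℝ), IsDim R d →
      ∀ n : I → ℕ, (∑ i, (n i : ℝ) * d i) ∈ K → ∀ i, n i ≠ 0 → d i ∈ K

/-- FEX. Conjugates of a dimension lying in K are dominated by the dimension.
Proof. S = (K : Set ℝ) ∪ Set.range d; every element of S is integral over ℚ.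
`IntermediateField.exists_algHom_adjoin_of_splits` (F := ℚ, E := ℝ, target ℂ, L := K,
f := (algebra map ℝ → ℂ) ∘ K.val ∘ t) gives φ : adjoin ℚ S →ₐ[ℚ] ℂ extending f. chi j = φ (d j) is a
character with chi i = t x; apply hFCH. -/
def StFEX : Prop :=
  ∀ (K : IntermediateField ℚ ℝ), FiniteDimensional ℚ K →
    ∀ (I : Type) [Fintype I] (R : FusionRing I) (d : I → ℝ), IsDim R d →
      ∀ (t : K ≃ₐ[ℚ] K) (i : I) (x : K), (x : ℝ) = d i → |((t x : K) : ℝ)| ≤ (x : ℝ)

/-- FGG. Every fusion ring has a positive Galois gap.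
Proof. For each i the polynomial minpoly ℚ (d i) is nonzero (d i is integral), so it has finitely many
complex roots z; for each root ‖z‖ ≤ d i (extend: there is φ : adjoin ℚ (Set.range d) →ₐ[ℚ] ℂ with
φ (d i) = z by `IntermediateField.exists_algHom_adjoin_of_splits_of_aeval`; chi j = φ (d j) is a character;
hFCH). Let γ be the minimum of 1 and the finitely many positive numbers d i - ‖z‖ (i in I, z a root with
‖z‖ < d i). -/
def StFGG : Prop :=
  ∀ (I : Type) [Fintype I] (R : FusionRing I) (d : I → ℝ), IsDim R d →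
    ∃ γ : ℝ, 0 < γ ∧ ∀ i, GalGap γ (d i)

/-- PFE. Every fusion ring has a positive character.
Proof. A i k := ∑ j, N i j k (as a real number). (1) A i k > 0: with i' = dual i one has, by assoc for
(i, i', k) and coefficient l = k: ∑_m N i i' m * N m k k ≥ N i i' one * N one k k = 1, and it equals
∑_m N i' k m * N i m k, so some m has N i m k > 0. (2) for all i, j some k has N i j k > 0: the coefficient
sum ∑_m N (dual i) i m * N m j j ≥ 1 (dual_self for dual i, dual_dual) equals ∑_m N i j m * N (dual i) m j.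
(3) Perron: there are r > 0 and v with all v i > 0 and ∑_k A i k * v k = r * v i: on the compact set of
(v, r) with v ≥ 0, ∑ v = 1, 0 ≤ r ≤ ∑ A i k and r * v i ≤ ∑_k A i k * v k for all i, choose r maximal; if some
inequality is strict then w = A v satisfies r * w i < (A w) i for all i, and normalising w contradicts the
maximality. v i > 0 because r * v = A v > 0.
(4) simplicity: if A u = r u for a real vector u, then u is a multiple of v: with c = min u i / v i the vector
u - c v is ≥ 0, has a zero coordinate, and A (u - c v) = r (u - c v); as A > 0 it is zero.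
(5) L i v := (j ↦ ∑_k N i j k * v k) satisfies A (L i v) = r (L i v) by assoc:
∑_k A j k * (L i v) k = ∑_{m,k,l} N j m k * N i k l * v l and (assoc i j m l): ∑_k N j m k * N i k l
= ∑_k N i j k * N k m l; so it is ∑_{k} N i j k * ∑_{m,l} N k m l * v l = ∑_k N i j k * r * v k.
So L i v = d i • v; evaluate at j = one: v i = d i * v one. Normalise v one = 1: v = d, and
∑_k N i j k * d k = d i * d j. -/
def StPFE : Prop :=
  ∀ (I : Type) [Fintype I] (R : FusionRing I), ∃ d : I → ℝ, IsDim R d

/-- PFM. The Frobenius-Perron dimension of an object (largest real eigenvalue) is ∑ n i * d i.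
Proof. d is an eigenvector of mulMat R n with eigenvalue ∑ n i * d i (sum of d i * d j = ∑_k N i j k * d k) and
d ≠ 0. If v ≠ 0 is an eigenvector for z, take j maximising |v j| / d j =: c > 0; then
|z| * |v j| ≤ ∑_k (mulMat R n j k) * |v k| ≤ c * ∑_k (mulMat R n j k) * d k = (∑ n i * d i) * c * d j
= (∑ n i * d i) * |v j|, so z ≤ |z| ≤ ∑ n i * d i. A largest eigenvalue is unique. -/
def StPFM : Prop :=
  ∀ (I : Type) [Fintype I] (R : FusionRing I) (d : I → ℝ), IsDim R d →
    ∀ (n : I → ℕ) (β : ℝ), IsFP R n β ↔ β = ∑ i, (n i : ℝ) * d i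

/-- DIR. A pigeonhole (Dirichlet) lemma. n = finrank ℚ K ≥ 3, so the group of automorphisms G has n elements.
Proof. (1) there are integral e_1 .. e_(n-1) in K such that 1, e_1, .., e_(n-1) are linearly independent over ℚ
(powers of an integral multiple of the generator of a power basis,
`Field.powerBasisOfFiniteOfSeparable`; or a basis of K containing 1, scaled). (2) E ≥ 1 real with
∑_i |e_i - t e_i| ≤ E for all t. (3) Let B ≥ C ≥ 2 E; A = ⌊B / E⌋₊ ≥ 1, so (A + 1) > B / E. For
a : Fin (n-1) → Fin (A+1) put x_a = ∑ a_i e_i; |x_a - t x_a| ≤ A E ≤ B. Let M ≥ 1 be the largest natural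
number with (M+1)^(n-2) < (A+1)^(n-1) (M = 1 works since 2^(n-2) < 2^(n-1) ≤ (A+1)^(n-1)); so
(M+2)^(n-2) ≥ (A+1)^(n-1) ≥ (B/E)^(n-1) and M + 2 ≤ 3 M. The map a ↦ (⌊(x_a - t x_a + B) * M / (2 B)⌋₊)_t with t
in G minus {1, t0} takes values in {0..M}, so at most (M+1)^(n-2) values; two different a, a' have the same
image. z = x_a - x_a' has integer coefficients a_i - a'_i in the e_i, not all zero, of absolute value ≤ A; so
z is not rational (linear independence), i.e. some t moves z (K Galois), |z - t z| ≤ A E ≤ B for all t, and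
|z - t z| < 2 B / M for t ≠ t0; |z - t z|^(n-2) * B ≤ (2B/M)^(n-2) * B = 6^(n-2) B^(n-1) / (3M)^(n-2)
≤ 6^(n-2) B^(n-1) / (B/E)^(n-1) = 6^(n-2) E^(n-1) ≤ C. -/
def StDIR : Prop :=
  ∀ (K : IntermediateField ℚ ℝ), FiniteDimensional ℚ K → IsGalois ℚ K → 3 ≤ Module.finrank ℚ K →
    ∀ t0 : K ≃ₐ[ℚ] K, t0 ≠ 1 → ∃ C : ℝ, 1 ≤ C ∧ ∀ B : ℝ, C ≤ B → ∃ z : K, IsIntegral ℤ z ∧
      (∃ t : K ≃ₐ[ℚ] K, t z ≠ z) ∧
      (∀ t : K ≃ₐ[ℚ] K, |(z : ℝ) - ((t z : K) : ℝ)| ≤ B) ∧
      ∀ t : K ≃ₐ[ℚ] K, t ≠ t0 →
        |(z : ℝ) - ((t z : K) : ℝ)| ^ (Module.finrank ℚ K - 2) * B ≤ C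

/-- ADM. Candidates near an extreme ray.
Proof. Take t1 ≠ 1 (exists, n ≥ 3) and C from hDIR (for t1); let z be as in hDIR. Replacing z by -z we may assume
t1 z ≤ z. Let r be an element of G minus {t1} (a finite nonempty set) for which the real number r z is
maximal; then r z ≥ z ≥ t1 z (1 is in the set), so r z ≥ t z for all t. Put x = r z and t0 = t1 * r⁻¹, t0 ≠ 1
as r ≠ t1. t x = (t * r) z. x - t x ≥ 0 for all t; x - t x = (r z - z) + (z - (t r) z) ≤ 2 B; if t ≠ t0 then
t * r ≠ t1, so x - t x ≤ 2 * max of two terms u each with u^(n-2) * B ≤ C, so (x - t x)^(n-2) * B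
≤ 2^(n-2) C. Let m = ⌈B - x⌉, β = x + m: B ≤ β ≤ B + 1, β - t β = x - t x ≤ 2 B ≤ 2 β gives |t β| ≤ β; some t
moves x because z is moved. New constant 2^(n-2) C. -/
def StADM : Prop :=
  ∀ (K : IntermediateField ℚ ℝ), FiniteDimensional ℚ K → IsGalois ℚ K → 3 ≤ Module.finrank ℚ K →
    ∃ C : ℝ, 1 ≤ C ∧ ∀ B : ℝ, C ≤ B → ∃ β : K, Cand K β ∧ B ≤ (β : ℝ) ∧ (β : ℝ) ≤ B + 1 ∧
      (∃ t : K ≃ₐ[ℚ] K, t β ≠ β) ∧
      ∃ t0 : K ≃ₐ[ℚ] K, t0 ≠ 1 ∧ ∀ t : K ≃ₐ[ℚ] K, t ≠ t0 →
        ((β : ℝ) - ((t β : K) : ℝ)) ^ (Module.finrank ℚ K - 2) * B ≤ C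

/-- NRM. Norm bound. Proof. s with s x ≠ x; y = x - s x is integral and nonzero, its norm is a nonzero integer,
so 1 ≤ ∏_t |t y| (`Algebra.norm_eq_prod_automorphisms`, `Algebra.isIntegral_norm`). t y = t x - (t s) x.
If t ≠ t0 and t * s ≠ t0 both t x and (t s) x are in [x - g, x], so |t y| ≤ g; the two exceptional t
(t = t0 and t = t0 * s⁻¹, different) have |t y| ≤ 2 x. The group has n elements. -/
def StNRM : Prop :=
  ∀ (K : IntermediateField ℚ ℝ), FiniteDimensional ℚ K → IsGalois ℚ K →
    ∀ (x : K) (t0 : K ≃ₐ[ℚ] K) (g : ℝ), IsIntegral ℤ x →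
      (∀ t : K ≃ₐ[ℚ] K, |((t x : K) : ℝ)| ≤ (x : ℝ)) →
      (∀ t : K ≃ₐ[ℚ] K, t ≠ t0 → (x : ℝ) - ((t x : K) : ℝ) ≤ g) →
      (∃ s : K ≃ₐ[ℚ] K, s x ≠ x) →
      1 ≤ g ^ (Module.finrank ℚ K - 2) * (2 * (x : ℝ)) ^ 2

/-- STB. Proof: suppose every t ≠ 1, t0 fixes x. If s x ≠ x then s = t0 ≠ 1. Choose r different from 1, t0
(n ≥ 3; the group has n elements). r fixes x, r⁻¹ * t0 ≠ t0, so r⁻¹ * t0 fixes x (it is 1 or neither 1 nor t0),
so t0 x = r x = x, contradiction. -/
def StSTB : Prop :=
  ∀ (K : IntermediateField ℚ ℝ), FiniteDimensional ℚ K → IsGalois ℚ K → 3 ≤ Module.finrank ℚ K →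
    ∀ (x : K) (t0 : K ≃ₐ[ℚ] K), (∃ s : K ≃ₐ[ℚ] K, s x ≠ x) →
      ∃ t : K ≃ₐ[ℚ] K, t ≠ 1 ∧ t ≠ t0 ∧ t x ≠ x

/-- CST. Constituents of an object whose dimension is near an extreme ray.
Proof. hFGK: d i = x in K for n i ≠ 0; hFEX: |t x| ≤ x. So ∑ n i (x_i - t x_i) = β - t β (t is additive and
commutes with natural multiples; only i with n i ≠ 0 matter) with nonnegative terms, n i ≥ 1: x_i - t x_i
≤ β - t β, which gives the first part. Some constituent is moved by some s (otherwise β would be fixed by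
all t); by hSTB it is moved by some t ≠ 1, t0, and then t x < x. hNRM with g = max over t ≠ t0 of β - t β
(t = 1 is among them, so g ≥ 0; g^(n-2) * B ≤ C): 1 ≤ g^(n-2) * 4 x^2, so B ≤ 4 C x^2. Integrality
of x: hFIN (and K → ℝ injective). -/
def StCST : Prop :=
  ∀ (K : IntermediateField ℚ ℝ), FiniteDimensional ℚ K → IsGalois ℚ K → 3 ≤ Module.finrank ℚ K →
    ∀ (β : K) (t0 : K ≃ₐ[ℚ] K) (B C : ℝ), 0 < B → t0 ≠ 1 →
      (∃ t : K ≃ₐ[ℚ] K, t β ≠ β) →
      (∀ t : K ≃ₐ[ℚ] K, t ≠ t0 →
        ((β : ℝ) - ((t β : K) : ℝ)) ^ (Module.finrank ℚ K - 2) * B ≤ C) →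
      ∀ (I : Type) [Fintype I] (R : FusionRing I) (d : I → ℝ), IsDim R d →
        ∀ n : I → ℕ, (β : ℝ) = ∑ i, (n i : ℝ) * d i →
          (∀ i, n i ≠ 0 → ∃ x : K, (x : ℝ) = d i ∧ ∀ t : K ≃ₐ[ℚ] K,
            0 ≤ (x : ℝ) - ((t x : K) : ℝ) ∧
            (t ≠ t0 → ((x : ℝ) - ((t x : K) : ℝ)) ^ (Module.finrank ℚ K - 2) * B ≤ C)) ∧
          ∃ i, n i ≠ 0 ∧ ∃ x : K, (x : ℝ) = d i ∧
            (∃ t : K ≃ₐ[ℚ] K, t ≠ 1 ∧ t ≠ t0 ∧ ((t x : K) : ℝ) < (x : ℝ)) ∧
            B ≤ 4 * C * (x : ℝ) ^ 2

/-- NGR. Near-group rings. Simple objects: the elements of Z/N (invertible) and one further X with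
g X = X g = X and X X = ∑ g + k X. I = Option (ZMod N) (or Option (Fin N) with the cyclic addition), none = X.
Associativity: case check, sums over Option and finite sums of indicator functions; the case X X X has
coefficient k at each g on both sides and N + k^2 at X. dual (some a) = some (-a), dual none = none.
d (some a) = 1, d none = ω; multiplicativity at (none, none): ω^2 = N + k ω. -/
def StNGR : Prop :=
  ∀ (N k : ℕ), 1 ≤ N → ∀ ω : ℝ, 0 < ω → ω ^ 2 = k * ω + N →
    ∃ (I : Type) (_ : Fintype I) (R : FusionRing I) (d : I → ℝ), IsDim R d ∧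
      ∃ i, d i = ω

/-- PRD. The product of two fusion rings: basis I × J,
N (i,i') (j,j') (k,k') = N i j k * N i' j' k'. -/
def StPRD : Prop :=
  ∀ (I J : Type) [Fintype I] [Fintype J] (R : FusionRing I) (S : FusionRing J)
    (d : I → ℝ) (e : J → ℝ), IsDim R d → IsDim S e →
    ∃ T : FusionRing (I × J),
      (∀ p q r, T.N p q r = R.N p.1 q.1 r.1 * S.N p.2 q.2 r.2) ∧
      IsDim T (fun p => d p.1 * e p.2)

/-- GPX. The Galois gap is multiplicative. Proof: γ > 0 so GalGap says in particular that all complex roots of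
the minimal polynomials of x, y have absolute value at most x, y. A root z of minpoly ℚ (x y) is φ (x y) for
some φ : adjoin ℚ {x, y} →ₐ[ℚ] ℂ (`IntermediateField.exists_algHom_adjoin_of_splits_of_aeval`), and φ x, φ y
are roots of the minimal polynomials of x, y. If ‖φ x‖ = x and ‖φ y‖ = y then ‖z‖ = x y. Otherwise, say,
‖φ x‖ + γ ≤ x: ‖z‖ = ‖φ x‖ ‖φ y‖ ≤ (x - γ) y ≤ x y - γ since 1 ≤ y. -/
def StGPX : Prop :=
  ∀ (γ x y : ℝ), 0 < γ → 1 ≤ x → 1 ≤ y → IsIntegral ℚ x → IsIntegral ℚ y →
    GalGap γ x → GalGap γ y → GalGap γ (x * y)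

/-- GWI. A square root of a natural number has every Galois gap. Proof: minpoly ℚ x divides X^2 - m, so every
complex root z has z^2 = m = x^2, ‖z‖^2 = x^2. -/
def StGWI : Prop :=
  ∀ (γ x : ℝ) (m : ℕ), 0 < x → x ^ 2 = m → GalGap γ x

/-- QUA. Candidates of a field of degree one or two. If finrank = 1: β is a rational algebraic integer,
hence a natural number: take k = 0, N = 1, ω = 1, δ = 2 (a = β, b = c = 0).
If finrank = 2: G = {1, s}. For integral y with s y = -y: y^2 is fixed by s, so it is a rational integer, and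
y^2 ≥ 1 if y ≠ 0. Let δ be the least positive real of the form w - s w, w integral (the set of all such
numbers is a subgroup Λ of ℝ; positive members exist because s ≠ 1 and integral multiples exist; members y
satisfy s y = -y, so y^2 is a natural number, and the minimum exists: choose y with y^2 minimal); let
w - s w = δ, and, adding an integer to w, assume w + s w = τ in {0, 1} (w + s w is a rational integer).
Every element of Λ is an integer multiple of δ (division with remainder: AddSubgroup or direct). Put ω = w,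
k = τ (as a natural number), δ^2 = τ^2 + 4 N where N = -w * s w (an integer; w satisfies w^2 = τ w + N);
N ≥ 1: δ^2 ≥ 1 gives N ≥ 0 and N = 0 would give w in {0, τ} rational, so δ = 0. ω = (τ + δ)/2 > 0.
For a candidate β: β - s β = j δ with j integer, j ≥ 0 because β ≥ s β; β - j w is fixed by s: an integer a.
β + s β = 2 a + j τ ≥ 0 because |s β| ≤ β. τ = 0: a ≥ 0, β = a + j ω. τ = 1: if a ≥ 0, β = a + j ω; if
a = -a' < 0 then 2 a' ≤ j and β = a' (2 ω - 1) + (j - 2 a') ω = a' δ + (j - 2 a') ω. -/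
def StQUA : Prop :=
  ∀ (K : IntermediateField ℚ ℝ), FiniteDimensional ℚ K → IsGalois ℚ K → Module.finrank ℚ K ≤ 2 →
    ∃ (k N : ℕ) (ω δ : ℝ), 1 ≤ N ∧ 0 < ω ∧ 0 < δ ∧ ω ^ 2 = k * ω + N ∧ δ ^ 2 = k ^ 2 + 4 * N ∧
      ∀ β : K, Cand K β → ∃ a b c : ℕ, (β : ℝ) = a + b * δ + c * ω

/-- QRL. One fusion ring for all candidates of a field of degree at most two.
Proof. k, N, ω, δ from hQUA. R1 = hNGR N k with ω, R2 = hNGR (k^2 + 4 N) 0 with δ (δ^2 = 0 * δ + (k^2 + 4N)),
T = hPRD of both. Simple objects of T of dimension ω, δ, 1: (i, one), (one, i'), (one, one)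
(d one = 1 by hFIN). n = a at (one, one) + b at (one, i') + c at (i, one) (use Pi.single or indicator
functions and add; the three indices may coincide, sums are fine). -/
def StQRL : Prop :=
  ∀ (K : IntermediateField ℚ ℝ), FiniteDimensional ℚ K → IsGalois ℚ K → Module.finrank ℚ K ≤ 2 →
    ∃ (I : Type) (_ : Fintype I) (R : FusionRing I) (d : I → ℝ), IsDim R d ∧
      ∀ β : K, Cand K β → ∃ n : I → ℕ, (β : ℝ) = ∑ i, (n i : ℝ) * d i

end Pool.Agent.Helper45.FG
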