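import Pool.Agent.Helper45.FG.St

/-!
Project FG, second part: lower bounds for the dimension of the fusion ring with an exponent which grows
with the degree of the field.
Target: K real Galois number field of degree m >= 3. There is c > 0 such that for every large B there is a
candidate beta in K with B <= beta <= B + 1 such that every fusion ring with an object of dimension beta has
dimension F (the sum of the squares of the dimensions of the simple objects) with
c * beta ^ (m (m-2)) <= F ^ (4 (m-1)).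
-/

set_option autoImplicit false

namespace Pool.Agent.Helper45.FG

open scoped BigOperators

/-- COC. The ring of integers of K is cocompact in the product of the real places.
Proof. m = finrank, G = K ≃ₐ[ℚ] K has m elements (K Galois). Let e_1 .. e_m be a basis of K over ℚ consisting of
integral elements (scale a basis: `exists_integral_multiple`). The real m × m matrix A with entries
A t j = t e_j is invertible: if ∑_t c_t * t e_j = 0 for all j with c real, then ∑_t c_t * t y = 0 for all y in K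
(y is a rational combination of the e_j), and the ring homomorphisms y ↦ (t y : ℝ) are linearly independent over ℝ
(`linearIndependent_monoidHom`, they are different), so c = 0. So every p is A a for a real vector a;
lam := ∑ ⌊a_j⌋ e_j satisfies |t lam - p t| ≤ ∑_j |t e_j| ≤ R0. -/
def StCOC : Prop :=
  ∀ (K : IntermediateField ℚ ℝ), FiniteDimensional ℚ K → IsGalois ℚ K →
    ∃ R0 : ℝ, 1 ≤ R0 ∧ ∀ p : (K ≃ₐ[ℚ] K) → ℝ, ∃ lam : K, IsIntegral ℤ lam ∧
      ∀ t : K ≃ₐ[ℚ] K, |((t lam : K) : ℝ) - p t| ≤ R0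

/-- PIG. Pigeonhole: an integral element which is small at the two places 1 and s.
Proof. e_1 .. e_m an integral basis of K over ℚ, E ≥ 1 with ∑_j |t e_j| ≤ E for all t. Let W ≥ C ≥ 2 E and
A = ⌊W / E⌋₊ ≥ 1, A + 1 > W / E. For a : Fin m → Fin (A+1) put x_a = ∑ a_j e_j, |t x_a| ≤ A E ≤ W. Let M ≥ 1 be the
largest natural number with (M+1)^2 < (A+1)^m (M = 1: 4 < 8 ≤ (A+1)^m since m ≥ 3); so (M+2)^2 ≥ (A+1)^m
≥ (W/E)^m and M + 2 ≤ 3 M. The map a ↦ (⌊(x_a + W) M / (2 W)⌋₊, ⌊(s x_a + W) M / (2 W)⌋₊) has at most (M+1)^2 values,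
so two different a, a' have the same image; w = x_a - x_a' is nonzero (independence), |t w| ≤ A E ≤ W (the
coefficients are at most A in absolute value), |w|, |s w| ≤ 2 W / M, so |w|^2 W^(m-2) ≤ 4 W^m / M^2
= 36 W^m / (3M)^2 ≤ 36 W^m / (W/E)^m = 36 E^m ≤ C. -/
def StPIG : Prop :=
  ∀ (K : IntermediateField ℚ ℝ), FiniteDimensional ℚ K → IsGalois ℚ K → 3 ≤ Module.finrank ℚ K →
    ∀ s : K ≃ₐ[ℚ] K, s ≠ 1 → ∃ C : ℝ, 1 ≤ C ∧ ∀ W : ℝ, C ≤ W → ∃ w : K, IsIntegral ℤ w ∧ w ≠ 0 ∧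
      (w : ℝ) ^ 2 * W ^ (Module.finrank ℚ K - 2) ≤ C ∧
      ((s w : K) : ℝ) ^ 2 * W ^ (Module.finrank ℚ K - 2) ≤ C ∧
      ∀ t : K ≃ₐ[ℚ] K, |((t w : K) : ℝ)| ≤ W

/-- NFE. Candidates near the face x = s x. Proof. R0 from hCOC, C0 from hPIG. Let B be large and
W = B / (3 R0) ≥ C0; w from hPIG. Choose lam by hCOC for p 1 = sign(w) * R0 and, for t ≠ 1,
p t = - sign(t w) * 2 R0 (all t w are nonzero). x = w * lam: 0 ≤ x ≤ 2 R0 |w|; for t ≠ 1:
-3 R0 |t w| ≤ t x ≤ - R0 |t w| < 0. So x - t x > 0 for t ≠ 1, |t x| ≤ 3 R0 W for all t,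
x - s x ≤ 2 R0 |w| + 3 R0 |s w| ≤ 5 R0 max(|w|, |s w|), (x - s x)^2 W^(m-2) ≤ 25 R0^2 C0.
j = ⌈B - x⌉, β = x + j: B ≤ β ≤ B + 1, β > 0 integral, β - t β = x - t x, which is ≥ 0 and ≤ 6 R0 W = 2 B ≤ 2 β; so
|t β| ≤ β. (β - s β)^2 B^(m-2) = (x - s x)^2 (3 R0)^(m-2) W^(m-2) ≤ 25 R0^2 C0 (3 R0)^(m-2) ≤ C. -/
def StNFE : Prop :=
  ∀ (K : IntermediateField ℚ ℝ), FiniteDimensional ℚ K → IsGalois ℚ K → 3 ≤ Module.finrank ℚ K →
    ∀ s : K ≃ₐ[ℚ] K, s ≠ 1 → ∃ C : ℝ, 1 ≤ C ∧ ∀ B : ℝ, C ≤ B → ∃ β : K, Cand K β ∧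
      B ≤ (β : ℝ) ∧ (β : ℝ) ≤ B + 1 ∧ 0 < (β : ℝ) - ((s β : K) : ℝ) ∧
      ((β : ℝ) - ((s β : K) : ℝ)) ^ 2 * B ^ (Module.finrank ℚ K - 2) ≤ C

/-- EXC. An automorphism of K extends to a complex character of the fusion ring. Proof as for FEX:
S = (K : Set ℝ) ∪ Set.range d, all elements integral over ℚ;
`IntermediateField.exists_algHom_adjoin_of_splits` (F := ℚ, E := ℝ, target ℂ, L := K,
f := (algebra map ℝ → ℂ) ∘ K.val ∘ t) gives φ : adjoin ℚ S →ₐ[ℚ] ℂ; chi j = φ (d j). (See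
Pool/Agent/Helper8/FG/M_FEX.lean, Pool.Agent.Helper8.FG.hFEX, which you may copy.) -/
def StEXC : Prop :=
  ∀ (K : IntermediateField ℚ ℝ), FiniteDimensional ℚ K →
    ∀ (I : Type) [Fintype I] (R : FusionRing I) (d : I → ℝ), IsDim R d →
      ∀ (t : K ≃ₐ[ℚ] K), ∃ χ : I → ℂ, χ R.one = 1 ∧
        (∀ i j, χ i * χ j = ∑ k, (R.N i j k : ℂ) * χ k) ∧
        ∀ (i : I) (x : K), (x : ℝ) = d i → χ i = (((t x : K) : ℝ) : ℂ)

/-- NRO. Norm bound with one small gap. Proof: y = x - s x is integral and nonzero, so 1 ≤ ∏_t |t y|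
(`Algebra.norm_eq_prod_automorphisms`); the factor t = 1 is x - s x (nonnegative), the other m - 1 factors
are |t x - (t s) x| ≤ 2 x. -/
def StNRO : Prop :=
  ∀ (K : IntermediateField ℚ ℝ), FiniteDimensional ℚ K → IsGalois ℚ K →
    ∀ (x : K) (s : K ≃ₐ[ℚ] K), IsIntegral ℤ x →
      (∀ t : K ≃ₐ[ℚ] K, |((t x : K) : ℝ)| ≤ (x : ℝ)) → s x ≠ x →
      1 ≤ ((x : ℝ) - ((s x : K) : ℝ)) * (2 * (x : ℝ)) ^ (Module.finrank ℚ K - 1)

/-- GAQ. The gap inequality: if chi is a character with chi i ≠ d i then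
d i ≤ 2 (d i - re (chi i)) * (∑ d j ^ 2) * |I|.
Proof. Write i' = dual i. Facts: (a) Frobenius reciprocity N i j k = N i' k j. (From assoc: for all a, b, c,
the coefficient of one in (a b) c: ∑_m N a b m * N m c one = N a b (dual c), and in a (b c):
∑_m N b c m * N a m one = N b c (dual a), using dual_self, dual_ne, dual_dual; so
N a b (dual c) = N b c (dual a): cyclic symmetry. With a = dual j, b = dual i, c = k and dual_mul:
N i j k = N (dual j) (dual i) (dual k) = N (dual i) k j.)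
(b) d (dual i) = d i (see FIN: the character j ↦ d (dual j) is dominated by d, and dual is an involution).
(c) if N i j k ≥ 1 then d i ≤ d j * d k: cyclic symmetry with a = i, b = j, c = dual k gives
N j (dual k) (dual i) = N i j k ≥ 1, so d j * d (dual k) ≥ d (dual i).
Let J be the set of all j reachable from one by steps a → b with N i a b ≥ 1 or N i' a b ≥ 1
(Relation.ReflTransGen). J is closed under the steps, and by (a) an i-step a → b is an i'-step b → a.
(d) ∑_{j in J} d j * chi j = 0: put S for this sum. chi i * S = ∑_{j in J} d j ∑_k N i j k * chi k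
= ∑_{k in J} chi k * ∑_{j in J} N i' k j * d j (all k with N i j k ≠ 0 are in J, (a)) = ∑_{k in J} chi k * d i' * d k
(all j with N i' k j ≠ 0 are in J) = d i * S. As chi i ≠ d i, S = 0.
(e) the term at one is chi one * d one = 1 > 0, so there is j1 in J with re (chi j1) < 0. With f j = chi j / d j: re f one = 1, re f j1 < 0.
(f) take a path from one to j1 in J by such steps without repeated vertices (or a SimpleGraph on I with
adjacency: a ≠ b and a step between them; it is symmetric; Reachable, then a path, of length L ≤ |I| - 1):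
1 ≤ ∑_{edges} |f a - f b|, so by Cauchy-Schwarz 1 ≤ L * ∑_{edges} |f a - f b|^2. The edges of a path are
distinct (as unordered pairs), each is {a, b} with N i a b ≥ 1 or N i b a ≥ 1, and has d a * d b ≥ d i by (c).
(g) energy: Q = ∑_{j, k in J} N i j k * d j * d k * ‖f j - f k‖^2 = ∑_{j,k in J} N i j k * (‖chi j‖^2 d k / d j +
‖chi k‖^2 d j / d k - 2 re (conj (chi j) * chi k)) = 2 (d i - re (chi i)) ∑_{j in J} ‖chi j‖^2
≤ 2 (d i - re (chi i)) * F, F = ∑ d j ^ 2, using hFCH (‖chi j‖ ≤ d j). Every unordered edge {a, b} of the path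
contributes at least d i * ‖f a - f b‖^2 to Q. So d i ≤ L * Q ≤ 2 (d i - re (chi i)) F |I|.
(All of this may be done with sums over all of I instead of J: replace J by the indicator function.) -/
def StGAQ : Prop :=
  ∀ (I : Type) [Fintype I] (R : FusionRing I) (d : I → ℝ), IsDim R d →
    ∀ χ : I → ℂ, χ R.one = 1 → (∀ i j, χ i * χ j = ∑ k, (R.N i j k : ℂ) * χ k) →
      ∀ i, χ i ≠ (d i : ℂ) →
        d i ≤ 2 * (d i - (χ i).re) * (∑ j, d j ^ 2) * (Fintype.card I : ℝ)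

/-- SIZ. Size of a fusion ring with an object near a face. Here F = ∑ d i ^ 2, m = finrank.
Proof. hFGK: d i in K for n i ≠ 0, hFEX: |t x| ≤ x. ∑ n i (x_i - s x_i) = β - s β > 0 with nonnegative terms; so
some i with n i ≠ 0 has 0 < g := x_i - s x_i ≤ β - s β =: g0. hNRO: 1 ≤ g (2 x_i)^(m-1). chi from hEXC for t = s:
chi i = s x_i ≠ d i, so hGAQ: x_i ≤ 2 g F |I| ≤ 2 g F^2 (|I| ≤ F since all d j ≥ 1, hFIN). So
1 ≤ g (4 g F^2)^(m-1) ≤ 4^(m-1) g0^m F^(2(m-1)); square: 1 ≤ 16^(m-1) g0^(2m) F^(4(m-1)); multiply by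
(B^(m-2))^m and use (g0^2 B^(m-2))^m ≤ C^m: B^(m(m-2)) ≤ 16^(m-1) C^m F^(4(m-1)). -/
def StSIZ : Prop :=
  ∀ (K : IntermediateField ℚ ℝ), FiniteDimensional ℚ K → IsGalois ℚ K → 3 ≤ Module.finrank ℚ K →
    ∀ (β : K) (s : K ≃ₐ[ℚ] K) (B C : ℝ), 0 < B → 0 < C →
      0 < (β : ℝ) - ((s β : K) : ℝ) →
      ((β : ℝ) - ((s β : K) : ℝ)) ^ 2 * B ^ (Module.finrank ℚ K - 2) ≤ C →
      ∀ (I : Type) [Fintype I] (R : FusionRing I) (d : I → ℝ), IsDim R d →
        ∀ n : I → ℕ, (β : ℝ) = ∑ i, (n i : ℝ) * d i →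
          B ^ (Module.finrank ℚ K * (Module.finrank ℚ K - 2)) ≤
            16 ^ (Module.finrank ℚ K - 1) * C ^ (Module.finrank ℚ K) *
              (∑ i, d i ^ 2) ^ (4 * (Module.finrank ℚ K - 1))

end Pool.Agent.Helper45.FG
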