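import Pool.Agent.Helper45.FG.St2

/-!
Project FG, third part: sharper form of the gap inequality (without the rank).
-/

set_option autoImplicit false

namespace Pool.Agent.Helper45.FG

open scoped BigOperators

/-- GAR. The gap inequality without the rank: if chi is a character with chi i ≠ d i then
d i ^ 2 ≤ 2 (d i - re (chi i)) * F ^ 2, F = ∑ d j ^ 2.
Proof. Exactly as StGAQ, with one more remark: the path from one to j1 has L edges and distinct vertices, every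
edge {a, b} has d a * d b ≥ d i, so d a ^ 2 + d b ^ 2 ≥ 2 d i; every vertex is in at most two edges of the path, so
2 F ≥ 2 ∑_{vertices} d a ^ 2 ≥ ∑_{edges} (d a ^ 2 + d b ^ 2) ≥ 2 L d i, that is L * d i ≤ F. With
d i ≤ L * Q and Q ≤ 2 (d i - re (chi i)) F one gets d i ^ 2 ≤ (L * d i) * Q ≤ F * Q ≤ 2 (d i - re (chi i)) F ^ 2. -/
def StGAR : Prop :=
  ∀ (I : Type) [Fintype I] (R : FusionRing I) (d : I → ℝ), IsDim R d →
    ∀ χ : I → ℂ, χ R.one = 1 → (∀ i j, χ i * χ j = ∑ k, (R.N i j k : ℂ) * χ k) →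
      ∀ i, χ i ≠ (d i : ℂ) →
        d i ^ 2 ≤ 2 * (d i - (χ i).re) * (∑ j, d j ^ 2) ^ 2

/-- SIR. Sharper form of SIZ (same proof, see Pool/Agent/Helper92/FG/M_SIZ.lean, with hGAR in the place of
hGAQ): for the constituent i with 0 < g = x_i - s x_i ≤ g0 = β - s β: 1 ≤ g (2 x_i)^(m-1) by hNRO, and
x_i^2 ≤ 2 g F^2 by hGAR (chi from hEXC), so (2 x_i)^2 ≤ 8 g F^2 and
1 ≤ g^2 ((2 x_i)^2)^(m-1) ≤ g^2 (8 g F^2)^(m-1) = 8^(m-1) g^(m+1) F^(2(m-1)) ≤ 8^(m-1) g0^(m+1) F^(2(m-1)); square, and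
multiply by (B^(m-2))^(m+1), using (g0^2 B^(m-2))^(m+1) ≤ C^(m+1). -/
def StSIR : Prop :=
  ∀ (K : IntermediateField ℚ ℝ), FiniteDimensional ℚ K → IsGalois ℚ K → 3 ≤ Module.finrank ℚ K →
    ∀ (β : K) (s : K ≃ₐ[ℚ] K) (B C : ℝ), 0 < B → 0 < C →
      0 < (β : ℝ) - ((s β : K) : ℝ) →
      ((β : ℝ) - ((s β : K) : ℝ)) ^ 2 * B ^ (Module.finrank ℚ K - 2) ≤ C →
      ∀ (I : Type) [Fintype I] (R : FusionRing I) (d : I → ℝ), IsDim R d →
        ∀ n : I → ℕ, (β : ℝ) = ∑ i, (n i : ℝ) * d i →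
          B ^ ((Module.finrank ℚ K + 1) * (Module.finrank ℚ K - 2)) ≤
            64 ^ (Module.finrank ℚ K - 1) * C ^ (Module.finrank ℚ K + 1) *
              (∑ i, d i ^ 2) ^ (4 * (Module.finrank ℚ K - 1))

end Pool.Agent.Helper45.FG
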