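import Pool.Agent.Helper45.FG.St3

/-!
Project FG, fourth part: K real Galois number field, H a subgroup of its automorphism group different from the
trivial group and from the whole group, k = index of H (the degree of the fixed field of H), h = order of H.
Target: c > 0 such that for all B >= 1/c there is a candidate beta of K in [c B, B], near the fixed space of H, such that
every object of dimension beta of every fusion ring is simple, and the fusion ring has dimension F with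
c * beta ^ (k + 1) <= F ^ 2.
-/

set_option autoImplicit false

namespace Pool.Agent.Helper45.FG

open scoped BigOperators

/-- PIH. Pigeonhole in the fixed field of H: an integral element fixed by H, small at the place 1.
Proof. L = IntermediateField.fixedField H has degree k = H.index over ℚ (`IntermediateField.finrank_fixedField_eq_card`
gives finrank over L = card H, and the tower law with IsGalois.card_aut_eq_finrank), k ≥ 2 since H ≠ ⊤.
e_1 .. e_k integral elements of L, a basis over ℚ; E ≥ 1 with ∑_j |t e_j| ≤ E for all t. W ≥ C ≥ 2 E,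
A = ⌊W / E⌋₊ ≥ 1, A + 1 > W / E. For a : Fin k → Fin (A+1) put x_a = ∑ a_j e_j, |t x_a| ≤ A E ≤ W. M = (A+1)^k - 2 ≥ 2
(as (A+1)^k ≥ 4), so M + 1 < (A+1)^k and 2 M ≥ (A+1)^k. The map a ↦ ⌊(x_a + W) M / (2 W)⌋₊ takes at most M + 1
values, so two different a, a' have the same value; w = x_a - x_a' is nonzero, fixed by H, |t w| ≤ A E ≤ W (coefficients at
most A in absolute value), |w| ≤ 2 W / M ≤ 4 W / (A+1)^k ≤ 4 W (E / W)^k, so |w| W^(k-1) ≤ 4 E^k ≤ C. -/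
def StPIH : Prop :=
  ∀ (K : IntermediateField ℚ ℝ), FiniteDimensional ℚ K → IsGalois ℚ K →
    ∀ H : Subgroup (K ≃ₐ[ℚ] K), H ≠ ⊤ → ∃ C : ℝ, 1 ≤ C ∧ ∀ W : ℝ, C ≤ W →
      ∃ w : K, IsIntegral ℤ w ∧ w ≠ 0 ∧ (∀ t ∈ H, t w = w) ∧
        |(w : ℝ)| * W ^ (H.index - 1) ≤ C ∧ ∀ t : K ≃ₐ[ℚ] K, |((t w : K) : ℝ)| ≤ W

/-- NFH. Candidates near the fixed space of H. Proof (compare Pool/Agent/Helper77/FG/M_NFE.lean).
R0 from hCOC, C0 from hPIH. B large, W = B / (3 R0) ≥ C0, w from hPIH. lam by hCOC for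
p 1 = sign(w) * R0 and, for t ≠ 1, p t = - sign(t w) * 2 R0 (all t w are nonzero). x = w * lam: 0 ≤ x ≤ 2 R0 |w|; for
t ≠ 1: -3 R0 |t w| ≤ t x ≤ - R0 |t w| < 0. So x - t x > 0 for t ≠ 1, |t x| ≤ 3 R0 W for all t, and for t in H
(t w = w) x - t x ≤ 5 R0 |w|, so (x - t x) W^(k-1) ≤ 5 R0 C0. j = ⌈B - x⌉, β = x + j: B ≤ β ≤ B + 1, integral,
β - t β = x - t x ≥ 0 and ≤ 6 R0 W = 2 B ≤ 2 β; so |t β| ≤ β.
(β - t β) B^(k-1) = (x - t x) (3 R0)^(k-1) W^(k-1) ≤ 5 R0 C0 (3 R0)^(k-1) ≤ C. -/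
def StNFH : Prop :=
  ∀ (K : IntermediateField ℚ ℝ), FiniteDimensional ℚ K → IsGalois ℚ K →
    ∀ H : Subgroup (K ≃ₐ[ℚ] K), H ≠ ⊤ → ∃ C : ℝ, 1 ≤ C ∧ ∀ B : ℝ, C ≤ B → ∃ β : K, Cand K β ∧
      B ≤ (β : ℝ) ∧ (β : ℝ) ≤ B + 1 ∧
      (∀ t : K ≃ₐ[ℚ] K, t ≠ 1 → 0 < (β : ℝ) - ((t β : K) : ℝ)) ∧
      ∀ t ∈ H, ((β : ℝ) - ((t β : K) : ℝ)) * B ^ (H.index - 1) ≤ C

/-- NRH. Norm bound. Proof (compare Pool/Agent/Helper55/FG/M_NRM.lean): s in H with s x ≠ x; y = x - s x is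
integral and nonzero, so 1 ≤ ∏_t |t y|, t y = t x - (t s) x. For t in H both t x and (t s) x are in [x - g, x], so
|t y| ≤ g: these are h = Nat.card H factors; the other m - h factors are at most 2 x. -/
def StNRH : Prop :=
  ∀ (K : IntermediateField ℚ ℝ), FiniteDimensional ℚ K → IsGalois ℚ K →
    ∀ (H : Subgroup (K ≃ₐ[ℚ] K)) (x : K) (g : ℝ), IsIntegral ℤ x →
      (∀ t : K ≃ₐ[ℚ] K, |((t x : K) : ℝ)| ≤ (x : ℝ)) →
      (∀ t ∈ H, (x : ℝ) - ((t x : K) : ℝ) ≤ g) →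
      (∃ s ∈ H, s x ≠ x) →
      1 ≤ g ^ (Nat.card H) * (2 * (x : ℝ)) ^ (Module.finrank ℚ K - Nat.card H)

end Pool.Agent.Helper45.FG
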